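import Pool.Agent.HDN.GG
import Pool.Agent.Hhelper14.SAW.Main
import Pool.Agent.Hhelper14.SAW.Final

set_option autoImplicit false

/-!
The power lower bound `a_n ≥ c n^(1/262) μ_L^n` on the honeycomb lattice.
-/

namespace Pool.Agent.HDN

open Pool.Agent.Hhelper14.SAW Pool.Agent.Hhelper14.Honeycomb

theorem low : ∃ c : ℝ, 0 < c ∧ ∀ n : ℕ, 1 ≤ n → c * (n : ℝ) ^ (1 / 262 : ℝ) * mu ^ n ≤ (an n : ℝ) := by
  obtain ⟨K, hK, hgr⟩ := slit_growth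
  obtain ⟨c, hc, hA⟩ := growth_sqrt (fun N => 1 + 2 * Real.sin (Real.pi / 8) * mass (Par.all N) 5)
    (fun n => xc ^ n * (an n : ℝ)) K (1 / 262)
    hK (by norm_num) (fun N n hn => an_lower ex_refl N n hn) hgr
  refine ⟨c, hc, fun n hn => ?_⟩
  have h1 := hA n hn
  have hmu0 := mu_pos
  have h2 : xc ^ n * mu ^ n = 1 := by rw [← mul_pow, xc_mu, one_pow]
  calc c * (n : ℝ) ^ (1 / 262 : ℝ) * mu ^ n ≤ (xc ^ n * (an n : ℝ)) * mu ^ n :=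
        mul_le_mul_of_nonneg_right h1 (by positivity)
    _ = (xc ^ n * mu ^ n) * (an n : ℝ) := by ring
    _ = an n := by rw [h2, one_mul]

theorem growth_low : ∃ c : ℝ, 0 < c ∧ ∀ n : ℕ, 1 ≤ n → c * (n : ℝ) ^ (1 / 262 : ℝ) * muL ^ n ≤ a n := by
  obtain ⟨c, hc, h⟩ := low
  refine ⟨c, hc, fun n hn => ?_⟩
  rw [muL_eq hw_quant, a_eq]
  exact h n hn

end Pool.Agent.HDN
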