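import Pool.Agent.Hhelper14.SAW.Count

set_option autoImplicit false

/-!
Pairs of paths of lengths `n` and `m` with `w{1,...,n}` and `w'{0,...,m}` disjoint are in bijection with the
paths of length `n + m`.
-/

namespace Pool.Agent.HDN

open Pool.Agent.Hhelper14.SAW Pool.Agent.Hhelper14.Honeycomb

/-- Disjoint pairs of lists. -/
def PL (n m : ℕ) : Set (List (ℤ × ℤ) × List (ℤ × ℤ)) :=
  {q | IsWalk n q.1 ∧ IsWalk m q.2 ∧ ∀ i ≤ n, ∀ j ≤ m, i ≠ 0 → pt q.1 i ≠ pt q.2 j}

lemma fw_cat2 {n m : ℕ} {p p' : ℕ → ℤ × ℤ} (hp : Fw n p) (hp' : Fw m p')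
    (hd : ∀ i ≤ n, ∀ j ≤ m, i ≠ 0 → p i ≠ p' j) : Fw (n + m) (cat n p p') := by
  have ht := fw_type hp n le_rfl
  refine ⟨?_, ?_, ?_⟩
  · simp only [cat, if_pos (Nat.zero_le n), Nat.sub_zero]
    exact rv_self _ _
  · intro i hi
    refine rv_adj ht ?_
    by_cases h1 : i + 1 ≤ n
    · rw [if_pos h1, if_pos (by omega)]
      have := hp.2.1 (n - (i + 1)) (by omega)
      have e : n - (i + 1) + 1 = n - i := by omega
      rw [e] at this
      exact this.symm
    · rw [if_neg h1]
      by_cases h2 : i ≤ n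
      · have e : i = n := by omega
        subst e
        rw [if_pos le_rfl, Nat.sub_self, hp.1, ← hp'.1]
        have e2 : i + 1 - i = 0 + 1 := by omega
        rw [e2]
        exact hp'.2.1 0 (by omega)
      · rw [if_neg h2]
        have e : i + 1 - n = i - n + 1 := by omega
        rw [e]
        exact hp'.2.1 (i - n) (by omega)
  · intro i hi j hj hij
    have h := rv_inj hij
    split_ifs at h with h1 h2 h2
    · have := hp.2.2 _ (by omega) _ (by omega) h
      omega
    · exfalso
      by_cases h3 : n - i = 0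
      · rw [h3, hp.1, ← hp'.1] at h
        have := hp'.2.2 _ (by omega) _ (by omega) h
        omega
      · exact hd _ (by omega) _ (by omega) h3 h
    · exfalso
      by_cases h3 : n - j = 0
      · rw [h3, hp.1, ← hp'.1] at h
        have := hp'.2.2 _ (by omega) _ (by omega) h
        omega
      · exact hd _ (by omega) _ (by omega) h3 h.symm
    · have := hp'.2.2 _ (by omega) _ (by omega) h
      omega

lemma fw_cutA2 {n m : ℕ} {q : ℕ → ℤ × ℤ} (hq : Fw (n + m) q) : Fw n (cutA n q) := by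
  have ht := fw_type hq n (by omega)
  refine ⟨rv_self _ _, ?_, ?_⟩
  · intro i hi
    refine rv_adj ht ?_
    have := hq.2.1 (n - (i + 1)) (by omega)
    have e : n - (i + 1) + 1 = n - i := by omega
    rw [e] at this
    exact this.symm
  · intro i hi j hj hij
    have := hq.2.2 _ (by omega) _ (by omega) (rv_inj hij)
    omega

lemma fw_cutB2 {n m : ℕ} {q : ℕ → ℤ × ℤ} (hq : Fw (n + m) q) : Fw m (cutB n q) := by
  have ht := fw_type hq n (by omega)
  refine ⟨rv_self _ _, ?_, ?_⟩
  · intro i hi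
    refine rv_adj ht ?_
    exact hq.2.1 (n + i) (by omega)
  · intro i hi j hj hij
    have := hq.2.2 _ (by omega) _ (by omega) (rv_inj hij)
    omega

lemma PL_le (n m : ℕ) : (PL n m).ncard ≤ an (n + m) := by
  unfold an
  refine Set.ncard_le_ncard_of_injOn (fun q => lst (n + m) (cat n (pt q.1) (pt q.2))) ?_ ?_ (walk_finite _)
  · rintro ⟨P, P'⟩ ⟨h1, h2, h3⟩
    exact (isWalk_lst _ _).2 (fw_cat2 (fw_pt h1) (fw_pt h2) h3)
  · rintro ⟨P, P'⟩ ⟨h1, h2, h3⟩ ⟨Q, Q'⟩ ⟨g1, g2, g3⟩ heq
    simp only at h1 h2 h3 g1 g2 g3 heq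
    have hall : ∀ i ≤ n + m, cat n (pt P) (pt P') i = cat n (pt Q) (pt Q') i := fun i hi => lst_inj heq hi
    have hn := hall n (by omega)
    simp only [cat, if_pos (le_refl n), Nat.sub_self, (fw_pt h1).1, (fw_pt g1).1] at hn
    have hc := rv_o hn
    have hP : P = Q := by
      refine pt_ext h1.1 g1.1 ?_
      intro i hi
      have := hall (n - i) (by omega)
      simp only [cat, if_pos (Nat.sub_le n i), hc] at this
      have := rv_inj this
      have e : n - (n - i) = i := by omega
      rwa [e] at this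
    have hP' : P' = Q' := by
      refine pt_ext h2.1 g2.1 ?_
      intro i hi
      rcases Nat.eq_zero_or_pos i with rfl | hpos
      · rw [(fw_pt h2).1, (fw_pt g2).1]
      · have := hall (n + i) (by omega)
        have e0 : ¬ (n + i ≤ n) := by omega
        simp only [cat, if_neg e0, hc] at this
        have := rv_inj this
        have e : n + i - n = i := by omega
        rwa [e] at this
    rw [hP, hP']

lemma PL_finite (n m : ℕ) : (PL n m).Finite :=
  ((walk_finite n).prod (walk_finite m)).subset (fun _ hq => ⟨hq.1, hq.2.1⟩)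

lemma le_PL (n m : ℕ) : an (n + m) ≤ (PL n m).ncard := by
  unfold an
  refine Set.ncard_le_ncard_of_injOn (fun Q => (lst n (cutA n (pt Q)), lst m (cutB n (pt Q)))) ?_ ?_
    (PL_finite n m)
  · intro Q hQ
    have hq := fw_pt hQ
    refine ⟨(isWalk_lst _ _).2 (fw_cutA2 hq), (isWalk_lst _ _).2 (fw_cutB2 hq), ?_⟩
    intro i hi j hj hi0 h
    simp only [pt_lst hi, pt_lst hj] at h
    have := hq.2.2 _ (by omega) _ (by omega) (rv_inj h)
    omega
  · intro Q hQ R hR heq
    simp only [Prod.mk.injEq] at heq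
    have hQ' : IsWalk (n + m) Q := hQ
    have hR' : IsWalk (n + m) R := hR
    have hA : ∀ i ≤ n, cutA n (pt Q) i = cutA n (pt R) i := fun i hi => lst_inj heq.1 hi
    have hB : ∀ i ≤ m, cutB n (pt Q) i = cutB n (pt R) i := fun i hi => lst_inj heq.2 hi
    have hn := hA n le_rfl
    simp only [cutA, Nat.sub_self, (fw_pt hQ').1, (fw_pt hR').1] at hn
    have hc := rv_o hn
    refine pt_ext hQ'.1 hR'.1 ?_
    intro i hi
    rcases le_or_gt i n with h | h
    · have := hA (n - i) (by omega)
      simp only [cutA, hc] at this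
      have := rv_inj this
      have e : n - (n - i) = i := by omega
      rwa [e] at this
    · have := hB (i - n) (by omega)
      simp only [cutB, hc] at this
      have := rv_inj this
      have e : n + (i - n) = i := by omega
      rwa [e] at this

lemma PL_card (n m : ℕ) : (PL n m).ncard = an (n + m) := le_antisymm (PL_le n m) (le_PL n m)

/-- The pairs of paths `w` of length `n` and `w'` of length `m` with `w{1,...,n}` and `w'{0,...,m}` disjoint. -/
def Pairs2 (n m : ℕ) : Set ((Fin (n + 1) → ℂ) × (Fin (m + 1) → ℂ)) :=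
  {q | q.1 ∈ Omega n ∧ q.2 ∈ Omega m ∧ ∀ (i : Fin (n + 1)) (j : Fin (m + 1)), i ≠ 0 → q.1 i ≠ q.2 j}

theorem pairs2_card (n m : ℕ) : (Pairs2 n m).ncard = a (n + m) := by
  rw [a_eq, ← PL_card]
  have : Pairs2 n m = (fun q : List (ℤ × ℤ) × List (ℤ × ℤ) => (G n q.1, G m q.2)) '' PL n m := by
    ext ⟨w, w'⟩
    constructor
    · rintro ⟨h1, h2, h3⟩
      obtain ⟨P, g1, g2⟩ := G_surj h1
      obtain ⟨P', g1', g2'⟩ := G_surj h2
      refine ⟨(P, P'), ⟨g1, g1', ?_⟩, by simp only [g2, g2']⟩
      intro i hi j hj hi0 heq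
      have := h3 ⟨i, by omega⟩ ⟨j, by omega⟩ (by
        intro h; apply hi0
        have := congrArg Fin.val h
        simpa using this)
      apply this
      rw [← g2, ← g2']
      simp only [G]
      rw [heq]
    · rintro ⟨⟨P, P'⟩, ⟨h1, h2, h3⟩, h4⟩
      simp only [Prod.mk.injEq] at h4
      obtain ⟨rfl, rfl⟩ := h4
      refine ⟨G_mem h1, G_mem h2, ?_⟩
      intro i j hi0 heq
      refine h3 i (by omega) j (by omega) ?_ (emb_inj heq)
      intro h; apply hi0
      exact Fin.ext (by simpa using h)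
  rw [this]
  refine Set.InjOn.ncard_image ?_
  rintro ⟨P, P'⟩ ⟨h1, h2, h3⟩ ⟨Q, Q'⟩ ⟨g1, g2, g3⟩ heq
  simp only [Prod.mk.injEq] at heq
  have e1 : P = Q := G_inj h1 g1 heq.1
  have e2 : P' = Q' := G_inj h2 g2 heq.2
  rw [e1, e2]

end Pool.Agent.HDN
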