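import Pool.Agent.HDN.Mean

set_option autoImplicit false

/-!
Generic forms: a positive sequence with `c n^κ μ^n ≤ a_n ≤ K n^D μ^n`.
-/

namespace Pool.Agent.HDN

theorem abs_poly (an : ℕ → ℝ) (hpos : ∀ n, 0 < an n) (mu : ℝ) (hmu : 0 < mu) (κ c : ℝ) (hc : 0 < c)
    (D K : ℝ) (hD : 0 < D) (hK : 1 ≤ K) (hlow : ∀ n : ℕ, 1 ≤ n → c * (n : ℝ) ^ κ * mu ^ n ≤ an n)
    (hup : ∀ n : ℕ, 1 ≤ n → an n ≤ K * (n : ℝ) ^ D * mu ^ n) (n k : ℕ) (hn : 1 ≤ n) :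
    ∏ j ∈ Finset.range k, (an (2 * (2 ^ j * n)) / an (2 ^ j * n) ^ 2) ^ ((1 / 2 : ℝ) ^ (j + 1)) ≤
      K * 2 ^ D / c * (n : ℝ) ^ (D / 2 ^ k - κ : ℝ) := by
  have hn0 : (0 : ℝ) < n := by exact_mod_cast hn
  have hn1 : (1 : ℝ) ≤ n := by exact_mod_cast hn
  set C₁ : ℝ := (1 / 2) ^ k * (Real.log K + D * Real.log ((2 : ℝ) ^ k * n)) with hC₁
  have hlogK : 0 ≤ Real.log K := Real.log_nonneg hK
  have hN : 1 ≤ 2 ^ k * n := Nat.one_le_iff_ne_zero.2 (by positivity)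
  have hp : (1 / 2 : ℝ) ^ k * 2 ^ k = 1 := by rw [← mul_pow]; norm_num
  have hC2 : C₁ * 2 ^ k = Real.log K + D * Real.log ((2 : ℝ) ^ k * n) := by
    rw [hC₁, mul_comm ((1 / 2 : ℝ) ^ k), mul_assoc, hp, mul_one]
  have h1 := mean_le an hpos mu hmu κ c hc C₁ n k hn
    (hlow n hn) (by
      refine (hup _ hN).trans (le_of_eq ?_)
      rw [hC2, Real.exp_add, Real.exp_log (by linarith), mul_comm D, ← Real.rpow_def_of_pos (by positivity)]
      push_cast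
      ring)
  refine h1.trans ?_
  have hk : (1 / 2 : ℝ) ^ k * k ≤ 1 := by
    have h2 : (k : ℝ) ≤ 2 ^ k := by
      exact_mod_cast (Nat.lt_two_pow_self).le
    calc (1 / 2 : ℝ) ^ k * k ≤ (1 / 2 : ℝ) ^ k * 2 ^ k := mul_le_mul_of_nonneg_left h2 (by positivity)
      _ = 1 := hp
  have hk1 : (1 / 2 : ℝ) ^ k ≤ 1 := pow_le_one₀ (by norm_num) (by norm_num)
  have hlog2 : 0 ≤ Real.log 2 := Real.log_nonneg (by norm_num)
  have hb : C₁ ≤ Real.log K + D * Real.log 2 + D / 2 ^ k * Real.log n := by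
    rw [hC₁, Real.log_mul (by positivity) hn0.ne', Real.log_pow]
    have e1 : (1 / 2 : ℝ) ^ k * (Real.log K + D * ((k : ℝ) * Real.log 2 + Real.log n)) =
        (1 / 2 : ℝ) ^ k * Real.log K + D * Real.log 2 * ((1 / 2 : ℝ) ^ k * k) + D / 2 ^ k * Real.log n := by
      rw [one_div, inv_pow]
      field_simp
      ring
    rw [e1]
    have e2 : (1 / 2 : ℝ) ^ k * Real.log K ≤ Real.log K := mul_le_of_le_one_left hlogK hk1
    have e3 : D * Real.log 2 * ((1 / 2 : ℝ) ^ k * k) ≤ D * Real.log 2 := mul_le_of_le_one_right (by positivity) hk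
    linarith
  have hexp : Real.exp C₁ ≤ K * 2 ^ D * (n : ℝ) ^ (D / 2 ^ k) := by
    calc Real.exp C₁ ≤ Real.exp (Real.log K + D * Real.log 2 + D / 2 ^ k * Real.log n) := Real.exp_le_exp.2 hb
      _ = K * 2 ^ D * (n : ℝ) ^ (D / 2 ^ k) := by
        rw [Real.exp_add, Real.exp_add, Real.exp_log (by linarith), Real.rpow_def_of_pos (by norm_num : (0 : ℝ) < 2),
          Real.rpow_def_of_pos hn0, mul_comm D, mul_comm (D / 2 ^ k)]
  calc Real.exp C₁ / c * (n : ℝ) ^ (-κ)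
      ≤ K * 2 ^ D * (n : ℝ) ^ (D / 2 ^ k) / c * (n : ℝ) ^ (-κ) := by gcongr
    _ = K * 2 ^ D / c * (n : ℝ) ^ (D / 2 ^ k - κ : ℝ) := by
        rw [sub_eq_add_neg, Real.rpow_add hn0]
        ring

/-- for every `δ < κ` every window `[n, K n]` contains an `m` with `a_(2m) / a_m^2 ≤ C m^(-δ)` -/
theorem abs_window (an : ℕ → ℝ) (hpos : ∀ n, 0 < an n) (mu : ℝ) (hmu : 0 < mu) (κ c : ℝ) (hc : 0 < c)
    (D K : ℝ) (hD : 0 < D) (hK : 1 ≤ K) (hlow : ∀ n : ℕ, 1 ≤ n → c * (n : ℝ) ^ κ * mu ^ n ≤ an n)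
    (hup : ∀ n : ℕ, 1 ≤ n → an n ≤ K * (n : ℝ) ^ D * mu ^ n) (δ : ℝ) (hδ0 : 0 ≤ δ) (hδ : δ < κ) :
    ∃ (L : ℕ) (C : ℝ), 0 < C ∧ ∀ n : ℕ, 1 ≤ n → ∃ m : ℕ, n ≤ m ∧ m ≤ L * n ∧
      an (2 * m) / an m ^ 2 ≤ C * (m : ℝ) ^ (-δ) := by
  set C : ℝ := K * 2 ^ D / c with hCdef
  have hC : 0 < C := by positivity
  obtain ⟨k, hk⟩ := pow_unbounded_of_one_lt (D / (κ - δ) + 1) (show (1 : ℝ) < 2 by norm_num)
  have hk2 : (0 : ℝ) < 2 ^ k := by positivity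
  have hκδ : 0 < κ - δ := by linarith
  have hDk : 0 < D / (κ - δ) := by positivity
  have hk1 : 1 ≤ k := by
    by_contra h0
    have : k = 0 := by omega
    rw [this, pow_zero] at hk
    linarith
  have hD2 : D / 2 ^ k ≤ κ - δ := by
    rw [div_le_iff₀ hk2]
    have h1 : D / (κ - δ) ≤ 2 ^ k := by linarith
    rw [div_le_iff₀ hκδ] at h1
    linarith
  refine ⟨2 ^ k, (max C 1) ^ 2 * (2 ^ k) ^ δ, by positivity, fun n hn => ?_⟩
  have hn0 : (0 : ℝ) < n := by exact_mod_cast hn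
  have hn1 : (1 : ℝ) ≤ n := by exact_mod_cast hn
  set s : ℝ := 1 - (1 / 2) ^ k with hs
  have hhalf : (1 / 2 : ℝ) ^ k ≤ 1 / 2 := by
    calc (1 / 2 : ℝ) ^ k ≤ (1 / 2) ^ 1 := pow_le_pow_of_le_one (by norm_num) (by norm_num) hk1
      _ = 1 / 2 := pow_one _
  have hs1 : 1 / 2 ≤ s := by rw [hs]; linarith
  have hsum : ∑ j ∈ Finset.range k, (1 / 2 : ℝ) ^ (j + 1) = s := by
    rw [hs]
    clear hk hk2 hk1 hD2 hs hhalf hs1
    induction k with
    | zero => simp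
    | succ k ih => rw [Finset.sum_range_succ, ih]; ring
  have hP0 : ∀ m, 0 < an (2 * m) / an m ^ 2 := by
    intro m
    have h1 := hpos (2 * m)
    have h2 := hpos m
    positivity
  obtain ⟨j₀, hj₀, hmin⟩ := Finset.exists_min_image (Finset.range k)
    (fun j => an (2 * (2 ^ j * n)) / an (2 ^ j * n) ^ 2) ⟨0, Finset.mem_range.2 hk1⟩
  have hprod : (an (2 * (2 ^ j₀ * n)) / an (2 ^ j₀ * n) ^ 2) ^ s ≤ C * (n : ℝ) ^ (D / 2 ^ k - κ : ℝ) := by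
    refine le_trans ?_ (abs_poly an hpos mu hmu κ c hc D K hD hK hlow hup n k hn)
    rw [← hsum, Real.rpow_sum_of_pos (hP0 _)]
    exact Finset.prod_le_prod (fun j _ => (Real.rpow_pos_of_pos (hP0 _) _).le)
      (fun j hj => Real.rpow_le_rpow (hP0 _).le (hmin j hj) (by positivity))
  refine ⟨2 ^ j₀ * n, ?_, ?_, ?_⟩
  · exact Nat.le_mul_of_pos_left _ (by positivity)
  · exact Nat.mul_le_mul_right _ (Nat.pow_le_pow_right (by norm_num) (Finset.mem_range.1 hj₀).le)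
  · have hs0 : 0 < s := by linarith
    have h1 : an (2 * (2 ^ j₀ * n)) / an (2 ^ j₀ * n) ^ 2 ≤
        (C * (n : ℝ) ^ (D / 2 ^ k - κ : ℝ)) ^ (1 / s) := by
      have := Real.rpow_le_rpow (Real.rpow_pos_of_pos (hP0 _) _).le hprod (show 0 ≤ 1 / s by positivity)
      rwa [← Real.rpow_mul (hP0 _).le, mul_one_div_cancel hs0.ne', Real.rpow_one] at this
    have hCm : (0 : ℝ) < max C 1 := lt_max_of_lt_left hC
    have hCm1 : (1 : ℝ) ≤ max C 1 := le_max_right _ _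
    have h2 : (C * (n : ℝ) ^ (D / 2 ^ k - κ : ℝ)) ^ (1 / s) ≤
        (max C 1) ^ 2 * (n : ℝ) ^ (-δ) := by
      rw [Real.mul_rpow hC.le (by positivity), ← Real.rpow_mul hn0.le]
      refine mul_le_mul ?_ ?_ (by positivity) (by positivity)
      · calc C ^ (1 / s) ≤ (max C 1) ^ (1 / s) := Real.rpow_le_rpow hC.le (le_max_left _ _) (by positivity)
          _ ≤ (max C 1) ^ (2 : ℝ) := by
              refine Real.rpow_le_rpow_of_exponent_le hCm1 ?_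
              rw [div_le_iff₀ hs0]; linarith
          _ = (max C 1) ^ 2 := by norm_num
      · refine Real.rpow_le_rpow_of_exponent_le hn1 ?_
        rw [mul_one_div, div_le_iff₀ hs0]
        have hsle : s ≤ 1 := by
          rw [hs]
          have : (0 : ℝ) < (1 / 2) ^ k := by positivity
          linarith
        nlinarith
    refine h1.trans (h2.trans ?_)
    have h3 : (n : ℝ) ^ (-δ) ≤ (2 ^ k) ^ δ * ((2 ^ j₀ * n : ℕ) : ℝ) ^ (-δ) := by
      have h4 : ((2 ^ j₀ * n : ℕ) : ℝ) ≤ 2 ^ k * n := by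
        push_cast
        exact mul_le_mul_of_nonneg_right (pow_le_pow_right₀ (by norm_num) (Finset.mem_range.1 hj₀).le) hn0.le
      have h5 : (0 : ℝ) < ((2 ^ j₀ * n : ℕ) : ℝ) := by positivity
      have h6 : ((2 : ℝ) ^ k * n) ^ (-δ) ≤ ((2 ^ j₀ * n : ℕ) : ℝ) ^ (-δ) :=
        Real.rpow_le_rpow_of_nonpos h5 h4 (by linarith)
      calc (n : ℝ) ^ (-δ) = (2 ^ k) ^ δ * ((2 : ℝ) ^ k * n) ^ (-δ) := by
            rw [Real.mul_rpow (by positivity) hn0.le, ← mul_assoc, ← Real.rpow_add hk2, add_neg_cancel,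
              Real.rpow_zero, one_mul]
        _ ≤ _ := mul_le_mul_of_nonneg_left h6 (by positivity)
    calc (max C 1) ^ 2 * (n : ℝ) ^ (-δ)
        ≤ (max C 1) ^ 2 * ((2 ^ k) ^ δ * ((2 ^ j₀ * n : ℕ) : ℝ) ^ (-δ)) :=
          mul_le_mul_of_nonneg_left h3 (by positivity)
      _ = _ := by ring

end Pool.Agent.HDN
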