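import Pool.Agent.Hhelper64.T12.Two
import Pool.Agent.HDN.AbsP

set_option autoImplicit false

/-!
The weighted geometric mean of `P_n, P_2n, P_4n, ...` for the honeycomb lattice and the lattice `(3,12^2)`.
-/

namespace Pool.Agent.HDN

open Pool.Agent.Hhelper14 Pool.Agent.Hhelper64.Two

theorem product2 (h : ∃ C : ℝ, 0 < C ∧ ∀ n : ℕ, 1 ≤ n → (SAW.an n : ℝ) ≤ C * (n : ℝ) ^ C * SAW.mu ^ n)
    (L : Set ℂ) (hL : L = honeycomb ∨ L = truncated) :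
    ∃ D C : ℝ, 0 < D ∧ 0 < C ∧ ∀ n k : ℕ, 1 ≤ n →
      ∏ j ∈ Finset.range k, P L (2 ^ j * n) ^ ((1 / 2 : ℝ) ^ (j + 1)) ≤
        C * (n : ℝ) ^ (D / 2 ^ k - 1 / 262 : ℝ) := by
  obtain ⟨hmu, hpos, hP, -, hlow, hup⟩ := facts h L hL
  obtain ⟨c, hc, hlow⟩ := hlow
  obtain ⟨D, hD, hup⟩ := hup
  refine ⟨D, max D 1 * 2 ^ D / c, hD, by positivity, fun n k hn => ?_⟩
  simp only [hP]
  exact abs_poly (fun n => (a L n : ℝ)) hpos (muL L) hmu (1 / 262) c hc D (max D 1) hD (le_max_right _ _) hlow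
    (fun n hn => (hup n hn).trans (by
      gcongr
      exact le_max_left _ _)) n k hn

end Pool.Agent.HDN
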