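import Mathlib

set_option autoImplicit false

/-!
Doubling argument: a power lower bound for every `n` and an upper bound `exp(C n^(1/3))` give a small ratio
`a_{2m} / a_m ^ 2` for some `m` between `n` and `C n^(3/2)`.
-/

namespace Pool.Agent.HDN

theorem ratio_small (an : ℕ → ℝ) (hpos : ∀ n, 0 < an n) (mu : ℝ) (hmu : 0 < mu) (κ : ℝ)
    (hκ : 0 ≤ κ) (c : ℝ) (hc : 0 < c)
    (hlow : ∀ n : ℕ, 1 ≤ n → c * (n : ℝ) ^ κ * mu ^ n ≤ an n) (C₁ : ℝ) (hC₁ : 0 < C₁)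
    (hup : ∀ n : ℕ, 1 ≤ n → an n ≤ mu ^ n * Real.exp (C₁ * (n : ℝ) ^ (1 / 3 : ℝ))) :
    ∃ C : ℝ, 0 < C ∧ ∀ n : ℕ, 1 ≤ n → ∃ m : ℕ, n ≤ m ∧ (m : ℝ) ≤ C * (n : ℝ) ^ (3 / 2 : ℝ) ∧
      an (2 * m) / an m ^ 2 ≤ C * (m : ℝ) ^ (-κ) := by
  set β : ℕ → ℝ := fun n => Real.log (an n) - n * Real.log mu with hβ
  have hβlow : ∀ n : ℕ, 1 ≤ n → Real.log c + κ * Real.log n ≤ β n := by
    intro n hn
    have hn0 : (0 : ℝ) < n := by exact_mod_cast hn
    have h1 := Real.log_le_log (by positivity) (hlow n hn)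
    rw [Real.log_mul (by positivity) (by positivity), Real.log_mul hc.ne' (by positivity),
      Real.log_rpow hn0, Real.log_pow] at h1
    simp only [hβ]
    linarith
  have hβup : ∀ n : ℕ, 1 ≤ n → β n ≤ C₁ * (n : ℝ) ^ (1 / 3 : ℝ) := by
    intro n hn
    have h1 := Real.log_le_log (hpos n) (hup n hn)
    rw [Real.log_mul (by positivity) (Real.exp_pos _).ne', Real.log_exp, Real.log_pow] at h1
    simp only [hβ]
    linarith
  set δ : ℝ := 1 - Real.log c with hδ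
  set lam : ℝ := δ + κ * Real.log 2 with hlam
  set D : ℝ := 1 + (2 * C₁) ^ 3 + 2 * |δ| with hD
  have hD1 : 1 ≤ D := by
    have : 0 ≤ (2 * C₁) ^ 3 := by positivity
    have := abs_nonneg δ
    rw [hD]; linarith
  have hDC : (2 * C₁) ^ 3 ≤ D ^ 2 := by
    have h1 : (2 * C₁) ^ 3 ≤ D := by
      have := abs_nonneg δ
      rw [hD]; linarith
    nlinarith
  have hDδ : 2 * δ < D := by
    have h1 : 0 ≤ (2 * C₁) ^ 3 := by positivity
    have h2 := le_abs_self δ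
    rw [hD]; linarith
  have hD0 : 0 < D := by linarith
  refine ⟨max (Real.exp lam) D, lt_max_of_lt_right hD0, fun n hn => ?_⟩
  have hn0 : (0 : ℝ) < n := by exact_mod_cast hn
  have hn1 : (1 : ℝ) ≤ n := by exact_mod_cast hn
  have hsq1 : 1 ≤ Real.sqrt n := Real.one_le_sqrt.2 hn1
  obtain ⟨k, hk1, hk2⟩ := exists_nat_pow_near (show (1 : ℝ) ≤ D * Real.sqrt n by nlinarith)
    (show (1 : ℝ) < 2 by norm_num)
  have hrt : (n : ℝ) ^ (3 / 2 : ℝ) = Real.sqrt n * n := by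
    rw [Real.sqrt_eq_rpow, ← Real.rpow_add_one hn0.ne']
    norm_num
  by_contra hcon
  push Not at hcon
  -- the violation at `2 ^ j n`, `j ≤ k`
  have hviol : ∀ j : ℕ, j ≤ k → lam - κ * Real.log ((2 ^ j * n : ℕ) : ℝ) ≤
      β (2 ^ (j + 1) * n) - 2 * β (2 ^ j * n) := by
    intro j hj
    have h1 : n ≤ 2 ^ j * n := Nat.le_mul_of_pos_left n (by positivity)
    have hm0 : (0 : ℝ) < ((2 ^ j * n : ℕ) : ℝ) := by positivity
    have h2 : ((2 ^ j * n : ℕ) : ℝ) ≤ max (Real.exp lam) D * (n : ℝ) ^ (3 / 2 : ℝ) := by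
      rw [hrt]
      push_cast
      have h3 : (2 : ℝ) ^ j ≤ 2 ^ k := pow_le_pow_right₀ (by norm_num) hj
      calc (2 : ℝ) ^ j * n ≤ D * Real.sqrt n * n := by
            exact mul_le_mul_of_nonneg_right (h3.trans hk1) hn0.le
        _ = D * (Real.sqrt n * n) := by ring
        _ ≤ max (Real.exp lam) D * (Real.sqrt n * n) :=
            mul_le_mul_of_nonneg_right (le_max_right _ _) (by positivity)
    have h4 := hcon _ h1 h2
    have h5 : Real.exp lam * ((2 ^ j * n : ℕ) : ℝ) ^ (-κ) ≤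
        an (2 * (2 ^ j * n)) / an (2 ^ j * n) ^ 2 :=
      (mul_le_mul_of_nonneg_right (le_max_left _ _) (by positivity)).trans h4.le
    have h6 := Real.log_le_log (by positivity) h5
    rw [Real.log_mul (Real.exp_pos _).ne' (by positivity), Real.log_exp, Real.log_rpow hm0,
      Real.log_div (hpos _).ne' (pow_ne_zero 2 (hpos _).ne'), Real.log_pow] at h6
    have h7 : 2 * (2 ^ j * n) = 2 ^ (j + 1) * n := by ring
    rw [h7] at h6
    simp only [hβ]
    push_cast at h6 ⊢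
    have e : (2 : ℝ) ^ (j + 1) = 2 ^ j * 2 := pow_succ _ _
    rw [e]
    linarith
  have hgrow : ∀ j : ℕ, j ≤ k + 1 →
      (2 : ℝ) ^ j ≤ β (2 ^ j * n) - κ * Real.log ((2 ^ j * n : ℕ) : ℝ) + δ := by
    intro j
    induction j with
    | zero =>
      intro _
      have h1 := hβlow n hn
      simp only [pow_zero, one_mul]
      rw [hδ]
      linarith
    | succ j ih =>
      intro hj
      have h1 := ih (by omega)
      have h2 := hviol j (by omega)
      have h3 : Real.log ((2 ^ (j + 1) * n : ℕ) : ℝ) =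
          Real.log 2 + Real.log ((2 ^ j * n : ℕ) : ℝ) := by
        have h4 : ((2 ^ (j + 1) * n : ℕ) : ℝ) = 2 * ((2 ^ j * n : ℕ) : ℝ) := by
          push_cast; ring
        rw [h4, Real.log_mul (by norm_num) (by positivity)]
      rw [h3, pow_succ]
      rw [hlam] at h2
      linarith
  have hJ := hgrow (k + 1) le_rfl
  set t : ℝ := (2 : ℝ) ^ (k + 1) with ht
  have ht0 : 0 < t := by positivity
  have htD : D * Real.sqrt n < t := hk2
  have htD2 : D < t := lt_of_le_of_lt (by nlinarith) htD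
  have hN1 : 1 ≤ 2 ^ (k + 1) * n := Nat.one_le_iff_ne_zero.2 (by positivity)
  have hlog : 0 ≤ κ * Real.log ((2 ^ (k + 1) * n : ℕ) : ℝ) :=
    mul_nonneg hκ (Real.log_nonneg (by exact_mod_cast hN1))
  have hu := hβup (2 ^ (k + 1) * n) hN1
  have hcube : ((2 ^ (k + 1) * n : ℕ) : ℝ) ≤ (t / (2 * C₁)) ^ 3 := by
    have h1 : ((2 ^ (k + 1) * n : ℕ) : ℝ) = t * n := by push_cast; rfl
    rw [h1, div_pow, le_div_iff₀ (by positivity)]
    have h2 : D ^ 2 * n ≤ t ^ 2 := by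
      have h3 : (D * Real.sqrt n) ^ 2 ≤ t ^ 2 := pow_le_pow_left₀ (by positivity) htD.le 2
      rwa [mul_pow, Real.sq_sqrt hn0.le] at h3
    calc t * n * (2 * C₁) ^ 3 ≤ t * n * D ^ 2 := mul_le_mul_of_nonneg_left hDC (by positivity)
      _ = t * (D ^ 2 * n) := by ring
      _ ≤ t * t ^ 2 := mul_le_mul_of_nonneg_left h2 ht0.le
      _ = t ^ 3 := by ring
  have hroot : ((2 ^ (k + 1) * n : ℕ) : ℝ) ^ (1 / 3 : ℝ) ≤ t / (2 * C₁) := by
    have h1 := Real.rpow_le_rpow (by positivity) hcube (show (0 : ℝ) ≤ 1 / 3 by norm_num)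
    refine h1.trans (le_of_eq ?_)
    rw [← Real.rpow_natCast, ← Real.rpow_mul (by positivity)]
    norm_num
  have h8 : C₁ * ((2 ^ (k + 1) * n : ℕ) : ℝ) ^ (1 / 3 : ℝ) ≤ t / 2 := by
    calc C₁ * ((2 ^ (k + 1) * n : ℕ) : ℝ) ^ (1 / 3 : ℝ) ≤ C₁ * (t / (2 * C₁)) :=
          mul_le_mul_of_nonneg_left hroot hC₁.le
      _ = t / 2 := by field_simp
  linarith

end Pool.Agent.HDN
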