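import Pool.Agent.Hhelper3.SAW.SurgeryFull
import Pool.Agent.Hhelper14.SAW.Low

set_option autoImplicit false

/-!
The chain of domains with exact constants.
-/

namespace Pool.Agent.HDN

open Pool.Agent.Hhelper14.SAW Pool.Agent.Hhelper3.SAW

lemma cos_le_zero (j : ℤ) (h1 : -12 ≤ j) (h2 : j ≤ -4) : Real.cos ((j : ℝ) * (Real.pi / 8)) ≤ 0 := by
  have hp := Real.pi_pos
  have h1' : (-12 : ℝ) ≤ j := by exact_mod_cast h1
  have h2' : (j : ℝ) ≤ -4 := by exact_mod_cast h2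
  rw [← Real.cos_neg]
  exact Real.cos_nonpos_of_pi_div_two_le_of_le (by nlinarith) (by nlinarith)

/-- The numbers `2 cos (π / 8)`, `√2` and `2 sin (π / 8)`. -/
lemma trig : Real.cos (Real.pi / 8) = mu / 2 ∧ Real.cos (2 * (Real.pi / 8)) = Real.sqrt 2 / 2 ∧
    Real.cos (3 * (Real.pi / 8)) = Real.sin (Real.pi / 8) ∧
    mu ^ 2 = 2 + Real.sqrt 2 ∧ Real.sin (Real.pi / 8) * mu = Real.sqrt 2 / 2 := by
  refine ⟨by unfold mu; ring, ?_, ?_, cos_sq_val, ?_⟩
  · rw [show 2 * (Real.pi / 8) = Real.pi / 4 by ring, Real.cos_pi_div_four]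
  · rw [show 3 * (Real.pi / 8) = Real.pi / 2 - Real.pi / 8 by ring, Real.cos_pi_div_two_sub]
  · unfold mu
    rw [show Real.sin (Real.pi / 8) * (2 * Real.cos (Real.pi / 8)) =
      2 * Real.sin (Real.pi / 8) * Real.cos (Real.pi / 8) by ring, ← Real.sin_two_mul,
      show 2 * (Real.pi / 8) = Real.pi / 4 by ring, Real.sin_pi_div_four]

section
variable (m : Par → ℤ → ℝ) (h0 : ∀ c k, 0 ≤ m c k)
    (hid : ∀ c, ∑ k ∈ Finset.Icc (-5 : ℤ) 5, zt k * (m c k : ℂ) = 1)
    (hmono : ∀ c c' k, c.Le c' → c.side k = c'.side k → m c k ≤ m c' k)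

include hid hmono in
/-- One step of the chain: the side `k0` is moved until it disappears. -/
lemma step3 (c c' : Par) (hle : c.Le c')
    (hside : ∀ k, -3 ≤ k → k ≤ 3 → k ≠ 3 → c.side k = c'.side k) (hkill : m c' 3 = 0) :
    Real.sin (Real.pi / 8) * m c 3 ≤ Real.sqrt 2 / 2 * (m c' 4 - m c 4) +
      mu / 2 * (m c' 5 - m c 5) := by
  obtain ⟨t1, t2, t3, -, -⟩ := trig
  set d : ℤ → ℝ := fun k => m c' k - m c k with hd
  have hs : ∑ k ∈ Finset.Icc (-5 : ℤ) 5, zt k * (d k : ℂ) = ((0 : ℝ) : ℂ) := by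
    have : ∑ k ∈ Finset.Icc (-5 : ℤ) 5, zt k * (d k : ℂ) =
        ∑ k ∈ Finset.Icc (-5 : ℤ) 5, zt k * (m c' k : ℂ) - ∑ k ∈ Finset.Icc (-5 : ℤ) 5, zt k * (m c k : ℂ) := by
      rw [← Finset.sum_sub_distrib]
      refine Finset.sum_congr rfl fun k _ => ?_
      rw [hd]; push_cast; ring
    rw [this, hid, hid]; simp
  have hre := (re_im d 6 hs).1
  rw [sum_Icc_five_real, zero_mul] at hre
  have hpos : ∀ k : ℤ, k ≠ 3 → 0 ≤ d k := by
    intro k h3
    have hz : c.side k = c'.side k := by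
      by_cases h : -3 ≤ k ∧ k ≤ 3
      · exact hside k h.1 h.2 h3
      · unfold Par.side
        split_ifs <;> omega
    have := hmono _ _ k hle hz
    simp only [hd]; linarith
  have hk0d : d 3 = - m c 3 := by simp only [hd]; rw [hkill]; ring
  have low : ∀ k : ℤ, -5 ≤ k → k ≤ 2 → Real.cos (((k - 6 : ℤ) : ℝ) * (Real.pi / 8)) * d k ≤ 0 := by
    intro k h1 h2
    exact mul_nonpos_of_nonpos_of_nonneg (cos_le_zero _ (by omega) (by omega)) (hpos k (by omega))
  have c3 : Real.cos (((3 - 6 : ℤ) : ℝ) * (Real.pi / 8)) = Real.sin (Real.pi / 8) := by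
    rw [← t3, ← Real.cos_neg]; congr 1; push_cast; ring
  have c4 : Real.cos (((4 - 6 : ℤ) : ℝ) * (Real.pi / 8)) = Real.sqrt 2 / 2 := by
    rw [← t2, ← Real.cos_neg]; congr 1; push_cast; ring
  have c5 : Real.cos (((5 - 6 : ℤ) : ℝ) * (Real.pi / 8)) = mu / 2 := by
    rw [← t1, ← Real.cos_neg]; congr 1; push_cast; ring
  rw [c3, c4, c5, hk0d] at hre
  have l1 := low (-5) (by norm_num) (by norm_num)
  have l2 := low (-4) (by norm_num) (by norm_num)
  have l3 := low (-3) (by norm_num) (by norm_num)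
  have l4 := low (-2) (by norm_num) (by norm_num)
  have l5 := low (-1) (by norm_num) (by norm_num)
  have l6 := low 0 (by norm_num) (by norm_num)
  have l7 := low 1 (by norm_num) (by norm_num)
  have l8 := low 2 (by norm_num) (by norm_num)
  have e4 : d 4 = m c' 4 - m c 4 := rfl
  have e5 : d 5 = m c' 5 - m c 5 := rfl
  rw [← e4, ← e5]
  linarith

include hid hmono in
lemma step2 (c c' : Par) (hle : c.Le c')
    (hside : ∀ k, -3 ≤ k → k ≤ 3 → k ≠ 2 → c.side k = c'.side k) (hkill : m c' 2 = 0) :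
    Real.sin (Real.pi / 8) * m c 2 ≤ Real.sqrt 2 / 2 * (m c' 3 - m c 3) +
      mu / 2 * (m c' 4 - m c 4) + (m c' 5 - m c 5) := by
  obtain ⟨t1, t2, t3, -, -⟩ := trig
  set d : ℤ → ℝ := fun k => m c' k - m c k with hd
  have hs : ∑ k ∈ Finset.Icc (-5 : ℤ) 5, zt k * (d k : ℂ) = ((0 : ℝ) : ℂ) := by
    have : ∑ k ∈ Finset.Icc (-5 : ℤ) 5, zt k * (d k : ℂ) =
        ∑ k ∈ Finset.Icc (-5 : ℤ) 5, zt k * (m c' k : ℂ) - ∑ k ∈ Finset.Icc (-5 : ℤ) 5, zt k * (m c k : ℂ) := by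
      rw [← Finset.sum_sub_distrib]
      refine Finset.sum_congr rfl fun k _ => ?_
      rw [hd]; push_cast; ring
    rw [this, hid, hid]; simp
  have hre := (re_im d 5 hs).1
  rw [sum_Icc_five_real, zero_mul] at hre
  have hpos : ∀ k : ℤ, k ≠ 2 → 0 ≤ d k := by
    intro k h3
    have hz : c.side k = c'.side k := by
      by_cases h : -3 ≤ k ∧ k ≤ 3
      · exact hside k h.1 h.2 h3
      · unfold Par.side
        split_ifs <;> omega
    have := hmono _ _ k hle hz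
    simp only [hd]; linarith
  have hk0d : d 2 = - m c 2 := by simp only [hd]; rw [hkill]; ring
  have low : ∀ k : ℤ, -5 ≤ k → k ≤ 1 → Real.cos (((k - 5 : ℤ) : ℝ) * (Real.pi / 8)) * d k ≤ 0 := by
    intro k h1 h2
    exact mul_nonpos_of_nonpos_of_nonneg (cos_le_zero _ (by omega) (by omega)) (hpos k (by omega))
  have c2 : Real.cos (((2 - 5 : ℤ) : ℝ) * (Real.pi / 8)) = Real.sin (Real.pi / 8) := by
    rw [← t3, ← Real.cos_neg]; congr 1; push_cast; ring
  have c3 : Real.cos (((3 - 5 : ℤ) : ℝ) * (Real.pi / 8)) = Real.sqrt 2 / 2 := by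
    rw [← t2, ← Real.cos_neg]; congr 1; push_cast; ring
  have c4 : Real.cos (((4 - 5 : ℤ) : ℝ) * (Real.pi / 8)) = mu / 2 := by
    rw [← t1, ← Real.cos_neg]; congr 1; push_cast; ring
  have c5 : Real.cos (((5 - 5 : ℤ) : ℝ) * (Real.pi / 8)) = 1 := by simp
  rw [c2, c3, c4, c5, hk0d] at hre
  have l1 := low (-5) (by norm_num) (by norm_num)
  have l2 := low (-4) (by norm_num) (by norm_num)
  have l3 := low (-3) (by norm_num) (by norm_num)
  have l4 := low (-2) (by norm_num) (by norm_num)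
  have l5 := low (-1) (by norm_num) (by norm_num)
  have l6 := low 0 (by norm_num) (by norm_num)
  have l7 := low 1 (by norm_num) (by norm_num)
  have e3 : d 3 = m c' 3 - m c 3 := rfl
  have e4 : d 4 = m c' 4 - m c 4 := rfl
  have e5 : d 5 = m c' 5 - m c 5 := rfl
  rw [← e3, ← e4, ← e5]
  linarith

include hid hmono in
lemma step1 (c c' : Par) (hle : c.Le c')
    (hside : ∀ k, -3 ≤ k → k ≤ 3 → k ≠ 1 → c.side k = c'.side k) (hkill : m c' 1 = 0) :
    Real.sin (Real.pi / 8) * m c 1 ≤ Real.sqrt 2 / 2 * (m c' 2 - m c 2) +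
      mu / 2 * (m c' 3 - m c 3) + (m c' 4 - m c 4) + mu / 2 * (m c' 5 - m c 5) := by
  obtain ⟨t1, t2, t3, -, -⟩ := trig
  set d : ℤ → ℝ := fun k => m c' k - m c k with hd
  have hs : ∑ k ∈ Finset.Icc (-5 : ℤ) 5, zt k * (d k : ℂ) = ((0 : ℝ) : ℂ) := by
    have : ∑ k ∈ Finset.Icc (-5 : ℤ) 5, zt k * (d k : ℂ) =
        ∑ k ∈ Finset.Icc (-5 : ℤ) 5, zt k * (m c' k : ℂ) - ∑ k ∈ Finset.Icc (-5 : ℤ) 5, zt k * (m c k : ℂ) := by
      rw [← Finset.sum_sub_distrib]
      refine Finset.sum_congr rfl fun k _ => ?_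
      rw [hd]; push_cast; ring
    rw [this, hid, hid]; simp
  have hre := (re_im d 4 hs).1
  rw [sum_Icc_five_real, zero_mul] at hre
  have hpos : ∀ k : ℤ, k ≠ 1 → 0 ≤ d k := by
    intro k h3
    have hz : c.side k = c'.side k := by
      by_cases h : -3 ≤ k ∧ k ≤ 3
      · exact hside k h.1 h.2 h3
      · unfold Par.side
        split_ifs <;> omega
    have := hmono _ _ k hle hz
    simp only [hd]; linarith
  have hk0d : d 1 = - m c 1 := by simp only [hd]; rw [hkill]; ring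
  have low : ∀ k : ℤ, -5 ≤ k → k ≤ 0 → Real.cos (((k - 4 : ℤ) : ℝ) * (Real.pi / 8)) * d k ≤ 0 := by
    intro k h1 h2
    exact mul_nonpos_of_nonpos_of_nonneg (cos_le_zero _ (by omega) (by omega)) (hpos k (by omega))
  have c1 : Real.cos (((1 - 4 : ℤ) : ℝ) * (Real.pi / 8)) = Real.sin (Real.pi / 8) := by
    rw [← t3, ← Real.cos_neg]; congr 1; push_cast; ring
  have c2 : Real.cos (((2 - 4 : ℤ) : ℝ) * (Real.pi / 8)) = Real.sqrt 2 / 2 := by
    rw [← t2, ← Real.cos_neg]; congr 1; push_cast; ring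
  have c3 : Real.cos (((3 - 4 : ℤ) : ℝ) * (Real.pi / 8)) = mu / 2 := by
    rw [← t1, ← Real.cos_neg]; congr 1; push_cast; ring
  have c4 : Real.cos (((4 - 4 : ℤ) : ℝ) * (Real.pi / 8)) = 1 := by simp
  have c5 : Real.cos (((5 - 4 : ℤ) : ℝ) * (Real.pi / 8)) = mu / 2 := by
    rw [← t1]; congr 1; push_cast; ring
  rw [c1, c2, c3, c4, c5, hk0d] at hre
  have l1 := low (-5) (by norm_num) (by norm_num)
  have l2 := low (-4) (by norm_num) (by norm_num)
  have l3 := low (-3) (by norm_num) (by norm_num)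
  have l4 := low (-2) (by norm_num) (by norm_num)
  have l5 := low (-1) (by norm_num) (by norm_num)
  have l6 := low 0 (by norm_num) (by norm_num)
  have e2 : d 2 = m c' 2 - m c 2 := rfl
  have e3 : d 3 = m c' 3 - m c 3 := rfl
  have e4 : d 4 = m c' 4 - m c 4 := rfl
  have e5 : d 5 = m c' 5 - m c 5 := rfl
  rw [← e2, ← e3, ← e4, ← e5]
  linarith

end

/-- The chain inequality: the slit masses must grow between the sizes `N` and `10 N + 11`. -/
theorem chain (N : ℕ) :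
    1 + 2 * Real.sin (Real.pi / 8) * mass (Par.all N) 5 ≤
      (6 + 4 * Real.sqrt 2) * (mass (Par.all (10 * N + 11)) 4 - mass (Par.all N) 4) +
      mu * (4 + 3 * Real.sqrt 2) * (mass (Par.all (10 * N + 11)) 5 - mass (Par.all N) 5) := by
  obtain ⟨t1, t2, t3, hmu2, hsm⟩ := trig
  have hmono : ∀ c c' k, c.Le c' → c.side k = c'.side k → mass c k ≤ mass c' k :=
    fun c c' k h hk => mass_mono h hk
  set C0 : Par := ⟨2 * N + 1, N, N, 2 * N + 1, N, N, 2 * N + 1⟩ with hC0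
  set C1 : Par := ⟨2 * N + 1, 3 * N + 3, N, 2 * N + 1, N, N, 2 * N + 1⟩ with hC1
  set C2 : Par := ⟨2 * N + 1, 3 * N + 3, 5 * N + 5, 2 * N + 1, N, N, 2 * N + 1⟩ with hC2
  set C3 : Par := ⟨2 * N + 1, 3 * N + 3, 5 * N + 5, 10 * N + 11, N, N, 2 * N + 1⟩ with hC3
  have s3 := step3 mass mass_ident hmono C2 C3 (by simp only [Par.Le, hC2, hC3]; omega)
    (by intro k a b hk; simp only [Par.side, hC2, hC3, if_neg hk])
    (by apply kill3; simp only [hC3]; omega)
  have s2 := step2 mass mass_ident hmono C1 C2 (by simp only [Par.Le, hC2, hC1]; omega)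
    (by intro k a b hk; simp only [Par.side, hC2, hC1, if_neg hk])
    (by apply kill2; simp only [hC2]; omega)
  have s1 := step1 mass mass_ident hmono C0 C1 (by simp only [Par.Le, hC0, hC1]; omega)
    (by intro k a b hk; simp only [Par.side, hC0, hC1, if_neg hk])
    (by apply kill1; simp only [hC1]; omega)
  have z13 : mass C1 3 = 0 := by apply kill3; simp only [hC1]; omega
  have z00 : mass C0 0 = 0 := by apply kill0; simp only [hC0]; omega
  have z03 : mass C0 3 = 0 := by apply kill3; simp only [hC0]; omega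
  have hsym : ∀ k, mass C0 (-k) = mass C0 k := fun k => Pool.Agent.Hhelper14.SAW.mass_refl C0 k
  have hid0 := (re_im (fun k => mass C0 k) 0 (a := 1) (by rw [mass_ident]; simp)).1
  rw [sum_Icc_five_real] at hid0
  simp only [hsym, z00, z03] at hid0
  have c5 : Real.cos (((5 - 0 : ℤ) : ℝ) * (Real.pi / 8)) = - Real.sin (Real.pi / 8) := by
    have : ((5 - 0 : ℤ) : ℝ) * (Real.pi / 8) = Real.pi / 8 + Real.pi / 2 := by push_cast; ring
    rw [this, Real.cos_add_pi_div_two]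
  have c5' : Real.cos (((-5 - 0 : ℤ) : ℝ) * (Real.pi / 8)) = - Real.sin (Real.pi / 8) := by
    have : ((-5 - 0 : ℤ) : ℝ) * (Real.pi / 8) = -(Real.pi / 8 + Real.pi / 2) := by push_cast; ring
    rw [this, Real.cos_neg, Real.cos_add_pi_div_two]
  have c4 : Real.cos (((4 - 0 : ℤ) : ℝ) * (Real.pi / 8)) = 0 := by
    have : ((4 - 0 : ℤ) : ℝ) * (Real.pi / 8) = Real.pi / 2 := by push_cast; ring
    rw [this, Real.cos_pi_div_two]
  have c4' : Real.cos (((-4 - 0 : ℤ) : ℝ) * (Real.pi / 8)) = 0 := by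
    have : ((-4 - 0 : ℤ) : ℝ) * (Real.pi / 8) = -(Real.pi / 2) := by push_cast; ring
    rw [this, Real.cos_neg, Real.cos_pi_div_two]
  have c1 : Real.cos (((1 - 0 : ℤ) : ℝ) * (Real.pi / 8)) = mu / 2 := by
    rw [← t1]; congr 1; push_cast; ring
  have c1' : Real.cos (((-1 - 0 : ℤ) : ℝ) * (Real.pi / 8)) = mu / 2 := by
    rw [← t1, ← Real.cos_neg]; congr 1; push_cast; ring
  have c2 : Real.cos (((2 - 0 : ℤ) : ℝ) * (Real.pi / 8)) = Real.sqrt 2 / 2 := by
    rw [← t2]; congr 1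
  have c2' : Real.cos (((-2 - 0 : ℤ) : ℝ) * (Real.pi / 8)) = Real.sqrt 2 / 2 := by
    rw [← t2, ← Real.cos_neg]; congr 1; push_cast; ring
  rw [c5, c5', c4, c4', c1, c1', c2, c2'] at hid0
  have one : (1 : ℝ) * Real.cos (((-0 : ℤ) : ℝ) * (Real.pi / 8)) = 1 := by simp
  rw [one] at hid0
  -- monotonicity of the slit masses along the chain
  have hz : ∀ k : ℤ, (k = 4 ∨ k = 5) → ∀ c1 c2 : Par, c1.side k = c2.side k := by
    intro k hk c1 c2
    rcases hk with rfl | rfl <;> simp [Par.side]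
  have hmn : ∀ k : ℤ, (k = 4 ∨ k = 5) → mass (Par.all N) k ≤ mass C0 k ∧ mass C0 k ≤ mass C1 k ∧
      mass C1 k ≤ mass C2 k ∧ mass C2 k ≤ mass C3 k ∧ mass C3 k ≤ mass (Par.all (10 * N + 11)) k := by
    intro k hk
    refine ⟨hmono _ _ k ?_ (hz k hk _ _), hmono _ _ k ?_ (hz k hk _ _), hmono _ _ k ?_ (hz k hk _ _),
      hmono _ _ k ?_ (hz k hk _ _), hmono _ _ k ?_ (hz k hk _ _)⟩
    all_goals simp only [Par.Le, Par.all, hC0, hC1, hC2, hC3]; omega
  obtain ⟨a0, a1, a2, a3, a4⟩ := hmn 4 (Or.inl rfl)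
  obtain ⟨b0, b1, b2, b3, b4⟩ := hmn 5 (Or.inr rfl)
  have p1 := mass_nonneg C0 2
  have p2 := mass_nonneg C2 3
  have p3 := mass_nonneg C1 2
  rw [z13, z03] at s1
  rw [z13] at s2
  have hr : Real.sqrt 2 ^ 2 = 2 := Real.sq_sqrt (by norm_num)
  have hr1 : (1.414 : ℝ) ≤ Real.sqrt 2 := Real.le_sqrt_of_sq_le (by norm_num)
  have hmu1 : 1.7 ≤ mu := mu_bounds.1
  set r := Real.sqrt 2 with hrd
  set v := Real.sin (Real.pi / 8) with hvd
  have hUr : 0 ≤ mu * r := by positivity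
  have e1 : ∀ x : ℝ, mu * r * (v * x) = x := by
    intro x
    linear_combination (r * x) * hsm + (x / 2) * hr
  have q3 := mul_le_mul_of_nonneg_left s3 hUr
  have q2 := mul_le_mul_of_nonneg_left s2 hUr
  have q1 := mul_le_mul_of_nonneg_left s1 hUr
  rw [e1] at q3 q2 q1
  have f3 : ∀ x y : ℝ, mu * r * (r / 2 * x + mu / 2 * y) = mu * x + (1 + r) * y := by
    intro x y
    linear_combination (mu / 2 * x + y / 2) * hr + (r / 2 * y) * hmu2
  have f2 : ∀ x y z : ℝ, mu * r * (r / 2 * x + mu / 2 * y + z) = mu * x + (1 + r) * y + r * mu * z := by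
    intro x y z
    linear_combination (mu / 2 * x + y / 2) * hr + (r / 2 * y) * hmu2
  have f1 : ∀ x y z w : ℝ, mu * r * (r / 2 * x + mu / 2 * y + z + mu / 2 * w) =
      mu * x + (1 + r) * y + r * mu * z + (1 + r) * w := by
    intro x y z w
    linear_combination (mu / 2 * x + y / 2 + w / 2) * hr + (r / 2 * y + r / 2 * w) * hmu2
  rw [f3] at q3
  rw [f2] at q2
  rw [f1] at q1
  have hmu0 : 0 ≤ mu := by linarith
  -- `U m3`, `(2 + r) m2`, `U m1`
  have w3 := mul_le_mul_of_nonneg_left q3 (show 0 ≤ mu * (2 + r) by positivity)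
  have g3 : mu * (2 + r) * (mu * (mass C3 4 - mass C2 4) + (1 + r) * (mass C3 5 - mass C2 5)) =
      (6 + 4 * r) * (mass C3 4 - mass C2 4) + mu * (4 + 3 * r) * (mass C3 5 - mass C2 5) := by
    linear_combination ((2 + r) * (mass C3 4 - mass C2 4)) * hmu2 +
      (mass C3 4 - mass C2 4 + mu * (mass C3 5 - mass C2 5)) * hr
  have w2 := mul_le_mul_of_nonneg_left q2 (show 0 ≤ 2 + r by positivity)
  have g2 : (2 + r) * (mu * (mass C2 3 - 0) + (1 + r) * (mass C2 4 - mass C1 4) +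
      r * mu * (mass C2 5 - mass C1 5)) = mu * (2 + r) * mass C2 3 +
      (4 + 3 * r) * (mass C2 4 - mass C1 4) + mu * (2 + 2 * r) * (mass C2 5 - mass C1 5) := by
    linear_combination (mass C2 4 - mass C1 4 + mu * (mass C2 5 - mass C1 5)) * hr
  have w1 := mul_le_mul_of_nonneg_left q1 hmu0
  have g1 : mu * (mu * (mass C1 2 - mass C0 2) + (1 + r) * (0 - 0) + r * mu * (mass C1 4 - mass C0 4) +
      (1 + r) * (mass C1 5 - mass C0 5)) = (2 + r) * (mass C1 2 - mass C0 2) +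
      (2 + 2 * r) * (mass C1 4 - mass C0 4) + mu * (1 + r) * (mass C1 5 - mass C0 5) := by
    linear_combination (mass C1 2 - mass C0 2 + r * (mass C1 4 - mass C0 4)) * hmu2 +
      (mass C1 4 - mass C0 4) * hr
  rw [g3] at w3
  rw [g2] at w2
  rw [g1] at w1
  have hv0 : 0 ≤ v := by rw [hvd]; linarith [sin_eighth]
  have h6 : v * mass (Par.all N) 5 ≤ v * mass C0 5 := mul_le_mul_of_nonneg_left b0 hv0
  set A4 := mass (Par.all N) 4
  set A5 := mass (Par.all N) 5
  set B4 := mass (Par.all (10 * N + 11)) 4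
  set B5 := mass (Par.all (10 * N + 11)) 5
  have k41 : (2 + 2 * r) * (mass C1 4 - mass C0 4) ≤ (6 + 4 * r) * (mass C1 4 - mass C0 4) :=
    mul_le_mul_of_nonneg_right (by linarith) (by linarith)
  have k42 : (4 + 3 * r) * (mass C2 4 - mass C1 4) ≤ (6 + 4 * r) * (mass C2 4 - mass C1 4) :=
    mul_le_mul_of_nonneg_right (by linarith) (by linarith)
  have k43 : (6 + 4 * r) * (mass C3 4 - mass C0 4) ≤ (6 + 4 * r) * (B4 - A4) :=
    mul_le_mul_of_nonneg_left (by linarith) (by linarith)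
  have k51 : mu * (1 + r) * (mass C1 5 - mass C0 5) ≤ mu * (4 + 3 * r) * (mass C1 5 - mass C0 5) :=
    mul_le_mul_of_nonneg_right (by nlinarith) (by linarith)
  have k52 : mu * (2 + 2 * r) * (mass C2 5 - mass C1 5) ≤ mu * (4 + 3 * r) * (mass C2 5 - mass C1 5) :=
    mul_le_mul_of_nonneg_right (by nlinarith) (by linarith)
  have k53 : mu * (4 + 3 * r) * (mass C3 5 - mass C0 5) ≤ mu * (4 + 3 * r) * (B5 - A5) :=
    mul_le_mul_of_nonneg_left (by linarith) (by positivity)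
  linarith

end Pool.Agent.HDN
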