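import Pool.Agent.HDN.Two
import Pool.Agent.HDN.Growth
import Pool.Agent.HEP.GFin

set_option autoImplicit false

/-!
A uniform walk of `n` steps and a walk of random length with law proportional to `x^length`, `x < 1 / μ_L`:
the probability that they do not meet, and its limit for `x → 1 / μ_L`.
-/

namespace Pool.Agent.HDN

open Pool.Agent.Hhelper14.SAW Pool.Agent.Hhelper14.Honeycomb Filter Topology

/-- `w` is uniform among the paths of length `n`, `w'` is a path of any length with probability proportional to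
`x ^ length`, independent of `w`: `Q n x` is the probability that `w{1,...,n}` and `w'{0,...}` are disjoint. -/
noncomputable def Q (n : ℕ) (x : ℝ) : ℝ :=
  (∑' m, ((Pairs2 n m).ncard : ℝ) * x ^ m) / ((a n : ℝ) * ∑' m, (a m : ℝ) * x ^ m)

lemma muL_pos : 0 < muL := by
  rw [muL_eq hw_quant]
  exact mu_pos

lemma cube_le {e : ℝ} (he : 0 < e) (n : ℕ) : (n : ℝ) ^ (1 / 3 : ℝ) ≤ e * n + e ^ (-(1 / 2) : ℝ) := by
  set t : ℝ := (n : ℝ) ^ (1 / 3 : ℝ) with ht
  have ht0 : 0 ≤ t := by positivity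
  have h3 : t ^ 3 = n := by
    rw [ht, ← Real.rpow_natCast, ← Real.rpow_mul (by positivity)]
    norm_num
  set s : ℝ := e ^ (-(1 / 2) : ℝ) with hs
  have hs0 : 0 < s := by positivity
  have hs2 : e * s ^ 2 = 1 := by
    rw [hs, ← Real.rpow_natCast, ← Real.rpow_mul he.le]
    norm_num
    rw [Real.rpow_neg he.le, Real.rpow_one, mul_inv_cancel₀ he.ne']
  rw [← h3]
  rcases le_total t s with h | h
  · have : 0 ≤ e * t ^ 3 := by positivity
    linarith
  · have h1 : e * s ^ 2 ≤ e * t ^ 2 := by gcongr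
    rw [hs2] at h1
    have h2 : t * 1 ≤ t * (e * t ^ 2) := mul_le_mul_of_nonneg_left h1 ht0
    nlinarith

lemma chi_summable {x : ℝ} (hx : 0 < x) (hx1 : x * muL < 1) : Summable fun m : ℕ => (a m : ℝ) * x ^ m := by
  obtain ⟨C, hC, h⟩ := Pool.Agent.HHP.main
  have hmu := muL_pos
  set r : ℝ := x * muL with hr
  have hr0 : 0 < r := by positivity
  set l : ℝ := -Real.log r with hl
  have hl0 : 0 < l := by rw [hl]; linarith [Real.log_neg hr0 hx1]
  set e : ℝ := l / (2 * C) with he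
  have he0 : 0 < e := by positivity
  have hb : ∀ m : ℕ, (a m : ℝ) * x ^ m ≤
      (max (a 0 : ℝ) 1 * Real.exp (C * e ^ (-(1 / 2) : ℝ))) * (Real.exp (-(l / 2))) ^ m := by
    intro m
    rcases Nat.eq_zero_or_pos m with rfl | hm
    · rw [pow_zero, pow_zero, mul_one, mul_one]
      have h1 : 1 ≤ Real.exp (C * e ^ (-(1 / 2) : ℝ)) := Real.one_le_exp (by positivity)
      calc (a 0 : ℝ) ≤ max (a 0 : ℝ) 1 * 1 := by rw [mul_one]; exact le_max_left _ _
        _ ≤ _ := mul_le_mul_of_nonneg_left h1 (by positivity)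
    · have h1 := (h m hm).1
      have h2 := cube_le he0 m
      have h3 : C * (m : ℝ) ^ (1 / 3 : ℝ) ≤ l / 2 * m + C * e ^ (-(1 / 2) : ℝ) := by
        have := mul_le_mul_of_nonneg_left h2 hC.le
        have h4 : C * (e * m) = l / 2 * m := by rw [he]; field_simp
        linarith
      have h4 : r ^ m = Real.exp (-l * m) := by
        rw [hl, neg_neg, mul_comm, Real.exp_nat_mul, Real.exp_log hr0]
      calc (a m : ℝ) * x ^ m ≤ (muL ^ m * Real.exp (C * (m : ℝ) ^ (1 / 3 : ℝ))) * x ^ m :=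
            mul_le_mul_of_nonneg_right h1 (by positivity)
        _ = r ^ m * Real.exp (C * (m : ℝ) ^ (1 / 3 : ℝ)) := by rw [hr, mul_pow]; ring
        _ ≤ r ^ m * Real.exp (l / 2 * m + C * e ^ (-(1 / 2) : ℝ)) :=
            mul_le_mul_of_nonneg_left (Real.exp_le_exp.2 h3) (by positivity)
        _ = 1 * Real.exp (C * e ^ (-(1 / 2) : ℝ)) * (Real.exp (-(l / 2))) ^ m := by
            rw [h4, ← Real.exp_nat_mul, ← Real.exp_add, one_mul, ← Real.exp_add]
            congr 1; ring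
        _ ≤ _ := by gcongr; exact le_max_right _ _
  refine Summable.of_nonneg_of_le (fun m => by positivity) hb (Summable.mul_left _ ?_)
  exact summable_geometric_of_lt_one (Real.exp_pos _).le
    (lt_of_lt_of_eq (Real.exp_lt_exp.2 (by linarith)) Real.exp_zero)

/-- The generating function. -/
noncomputable def chi (x : ℝ) : ℝ := ∑' m, (a m : ℝ) * x ^ m

lemma a_pos' (n : ℕ) : (0 : ℝ) < a n := a_pos n

lemma muL_pow_le (n : ℕ) : muL ^ n ≤ a n := by
  rcases Nat.eq_zero_or_pos n with rfl | hn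
  · rw [pow_zero]
    have := a_pos 0
    exact_mod_cast this
  · rw [muL_eq hw_quant, a_eq]
    exact mu_pow_le n hn

lemma chi_ge {x : ℝ} (hx : 0 < x) (hx1 : x * muL < 1) : (1 - x * muL)⁻¹ ≤ chi x := by
  have hmu := muL_pos
  rw [← tsum_geometric_of_lt_one (by positivity) hx1]
  refine Summable.tsum_le_tsum (fun m => ?_) (summable_geometric_of_lt_one (by positivity) hx1)
    (chi_summable hx hx1)
  rw [mul_pow, mul_comm]
  exact mul_le_mul_of_nonneg_right (muL_pow_le m) (by positivity)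

lemma Q_eq {x : ℝ} (hx : 0 < x) (hx1 : x * muL < 1) (n : ℕ) :
    Q n x = (x ^ n * a n)⁻¹ * (1 - (∑ m ∈ Finset.range n, (a m : ℝ) * x ^ m) / chi x) := by
  have hchi : 0 < chi x := lt_of_lt_of_le (by
    have := muL_pos
    exact inv_pos.2 (by linarith)) (chi_ge hx hx1)
  have ha := a_pos' n
  have hs := chi_summable hx hx1
  have h1 : chi x = (∑ m ∈ Finset.range n, (a m : ℝ) * x ^ m) +
      x ^ n * ∑' m, ((Pairs2 n m).ncard : ℝ) * x ^ m := by
    rw [chi, ← hs.sum_add_tsum_nat_add n]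
    congr 1
    rw [← tsum_mul_left]
    refine tsum_congr fun m => ?_
    rw [pairs2_card, pow_add, add_comm m n]
    ring
  have h2 : ∑' m, ((Pairs2 n m).ncard : ℝ) * x ^ m =
      (chi x - ∑ m ∈ Finset.range n, (a m : ℝ) * x ^ m) / x ^ n := by
    rw [eq_div_iff (by positivity)]
    linarith
  have h3 : Q n x = (∑' m, ((Pairs2 n m).ncard : ℝ) * x ^ m) / ((a n : ℝ) * chi x) := rfl
  rw [h3, h2]
  field_simp

/-- The bound for every `x` below the critical value. -/
theorem Q_le {x : ℝ} (hx : 0 < x) (hx1 : x * muL < 1) (n : ℕ) : Q n x ≤ (x ^ n * a n)⁻¹ := by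
  rw [Q_eq hx hx1]
  have hchi : 0 < chi x := lt_of_lt_of_le (by
    have := muL_pos
    exact inv_pos.2 (by linarith)) (chi_ge hx hx1)
  have ha := a_pos' n
  refine mul_le_of_le_one_right (by positivity) ?_
  have : 0 ≤ (∑ m ∈ Finset.range n, (a m : ℝ) * x ^ m) / chi x := by positivity
  linarith

theorem Q_tendsto (n : ℕ) : Tendsto (fun x => Q n x) (𝓝[<] (1 / muL)) (𝓝 (muL ^ n / a n)) := by
  have hmu := muL_pos
  have ha := a_pos' n
  have hev : ∀ᶠ x in 𝓝[<] (1 / muL), 0 < x ∧ x * muL < 1 := by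
    have h0 : Set.Ioo 0 (1 / muL) ∈ 𝓝[<] (1 / muL) := Ioo_mem_nhdsLT (by positivity)
    filter_upwards [h0] with x hx
    exact ⟨hx.1, by rw [← lt_div_iff₀ hmu]; exact hx.2⟩
  have hchi : Tendsto chi (𝓝[<] (1 / muL)) atTop := by
    refine tendsto_atTop_mono' (𝓝[<] (1 / muL)) (f₁ := fun x => (1 - x * muL)⁻¹) ?_ ?_
    · filter_upwards [hev] with x hx using chi_ge hx.1 hx.2
    · refine Tendsto.inv_tendsto_nhdsGT_zero ?_
      refine tendsto_nhdsWithin_iff.2 ⟨?_, ?_⟩
      · have : Tendsto (fun x : ℝ => 1 - x * muL) (𝓝 (1 / muL)) (𝓝 (1 - 1 / muL * muL)) := by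
          refine Continuous.tendsto ?_ _
          fun_prop
        rw [one_div_mul_cancel hmu.ne', sub_self] at this
        exact this.mono_left nhdsWithin_le_nhds
      · filter_upwards [hev] with x hx
        simp only [Set.mem_Ioi]
        linarith [hx.2]
  have hS : Tendsto (fun x : ℝ => (∑ m ∈ Finset.range n, (a m : ℝ) * x ^ m) / chi x) (𝓝[<] (1 / muL)) (𝓝 0) := by
    refine Tendsto.div_atTop (a := ∑ m ∈ Finset.range n, (a m : ℝ) * (1 / muL) ^ m) ?_ hchi
    refine Tendsto.mono_left ?_ nhdsWithin_le_nhds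
    refine Continuous.tendsto (f := fun x : ℝ => ∑ m ∈ Finset.range n, (a m : ℝ) * x ^ m) ?_ _
    fun_prop
  have hP : Tendsto (fun x : ℝ => (x ^ n * a n)⁻¹) (𝓝[<] (1 / muL)) (𝓝 (muL ^ n / a n)) := by
    have h1 : muL ^ n / a n = ((1 / muL) ^ n * a n)⁻¹ := by
      rw [one_div, inv_pow]
      field_simp
    rw [h1]
    refine Tendsto.inv₀ ?_ (by positivity)
    refine Tendsto.mono_left ?_ nhdsWithin_le_nhds
    refine Continuous.tendsto (f := fun x : ℝ => x ^ n * (a n : ℝ)) ?_ _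
    fun_prop
  have h := hP.mul (hS.const_sub 1)
  rw [sub_zero, mul_one] at h
  refine h.congr' ?_
  filter_upwards [hev] with x hx
  exact (Q_eq hx.1 hx.2 n).symm

theorem crit (ε : ℝ) (hε : 0 < ε) : ∃ C : ℝ, 0 < C ∧ ∀ n : ℕ, 1 ≤ n → ∃ p : ℝ,
    Tendsto (fun x => Q n x) (𝓝[<] (1 / muL)) (𝓝 p) ∧
      Real.exp (-(C * (n : ℝ) ^ ε)) ≤ p ∧ p ≤ C * (n : ℝ) ^ (-(1 / 262) : ℝ) := by
  obtain ⟨c, hc, hlow⟩ := growth_low
  obtain ⟨C, hC, hup⟩ := Pool.Agent.HEP.main ε hε
  have hmu := muL_pos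
  refine ⟨max C c⁻¹, lt_max_of_lt_left hC, fun n hn => ⟨muL ^ n / a n, Q_tendsto n, ?_, ?_⟩⟩
  · have ha := a_pos' n
    have hn0 : (0 : ℝ) < n := by exact_mod_cast hn
    rw [le_div_iff₀ ha]
    calc Real.exp (-(max C c⁻¹ * (n : ℝ) ^ ε)) * a n
        ≤ Real.exp (-(C * (n : ℝ) ^ ε)) * (muL ^ n * Real.exp (C * (n : ℝ) ^ ε)) := by
          refine mul_le_mul ?_ (hup n hn).1 ha.le (Real.exp_pos _).le
          refine Real.exp_le_exp.2 (neg_le_neg ?_)
          exact mul_le_mul_of_nonneg_right (le_max_left _ _) (by positivity)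
      _ = muL ^ n := by
          rw [mul_comm (muL ^ n), ← mul_assoc, ← Real.exp_add, neg_add_cancel, Real.exp_zero, one_mul]
  · have ha := a_pos' n
    have hn0 : (0 : ℝ) < n := by exact_mod_cast hn
    rw [div_le_iff₀ ha]
    have h1 := hlow n hn
    have h2 : (n : ℝ) ^ (-(1 / 262) : ℝ) * (n : ℝ) ^ (1 / 262 : ℝ) = 1 := by
      rw [← Real.rpow_add hn0, neg_add_cancel, Real.rpow_zero]
    calc muL ^ n = (c⁻¹ * (n : ℝ) ^ (-(1 / 262) : ℝ)) * (c * (n : ℝ) ^ (1 / 262 : ℝ) * muL ^ n) := by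
          have : c⁻¹ * c = 1 := inv_mul_cancel₀ hc.ne'
          calc muL ^ n = (c⁻¹ * c) * ((n : ℝ) ^ (-(1 / 262) : ℝ) * (n : ℝ) ^ (1 / 262 : ℝ)) * muL ^ n := by
                rw [this, h2, one_mul, one_mul]
            _ = _ := by ring
      _ ≤ (c⁻¹ * (n : ℝ) ^ (-(1 / 262) : ℝ)) * a n := mul_le_mul_of_nonneg_left h1 (by positivity)
      _ ≤ max C c⁻¹ * (n : ℝ) ^ (-(1 / 262) : ℝ) * a n := by
          refine mul_le_mul_of_nonneg_right ?_ ha.le
          exact mul_le_mul_of_nonneg_right (le_max_right _ _) (by positivity)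

end Pool.Agent.HDN
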