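import Pool.Agent.HDN.Crit

set_option autoImplicit false

/-!
A uniform walk of `n` steps and an independent walk of random length with law proportional to `x^length`: the probability
`Q n x` that they do not meet, for EVERY `n ≥ 1` and EVERY `x` with `1 - 1/n ≤ μ_L x < 1` (so the lengths of the two walks are
comparable for `μ_L x = 1 - 1/n`, and `x → 1/μ_L` is the critical walk): two-sided bounds.

* `Q_ge`: `a_m ≤ B μ_L^m` for `m ≤ n`, `B ≥ 1` gives `Q n x ≥ B^(-2)` for all `0 < x < 1/μ_L`.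
* `Q_le_X`: `Q n x ≤ C n^(-1/262)` for `1 - 1/n ≤ μ_L x < 1`.
* `critX`: `exp(-C n^ε) ≤ Q n x ≤ C n^(-1/262)`. `critX_poly`: the same with `n^(-2D)/C` from `a_n ≤ K n^D μ_L^n`.
-/

namespace Pool.Agent.HDN

open Pool.Agent.Hhelper14.SAW Pool.Agent.Hhelper14.Honeycomb Filter Topology

lemma omega_finite (n : ℕ) : (Omega n).Finite :=
  Set.finite_of_ncard_pos (Nat.cast_pos.1 (a_pos n) : 0 < a n)

lemma pairs2_le (n m : ℕ) : (Pairs2 n m).ncard ≤ a n * a m := by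
  have h : Pairs2 n m ⊆ (Omega n) ×ˢ (Omega m) := fun q hq => ⟨hq.1, hq.2.1⟩
  refine (Set.ncard_le_ncard h ((omega_finite n).prod (omega_finite m))).trans ?_
  rw [Set.ncard_prod]
  exact le_rfl

lemma a_add_le (n m : ℕ) : a (n + m) ≤ a n * a m := by
  rw [← pairs2_card]
  exact pairs2_le n m

lemma Q_le_one {x : ℝ} (hx : 0 < x) (hx1 : x * muL < 1) (n : ℕ) : Q n x ≤ 1 := by
  have hs := chi_summable hx hx1
  have hchi : 0 < chi x := lt_of_lt_of_le (by
    have := muL_pos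
    exact inv_pos.2 (by linarith)) (chi_ge hx hx1)
  have ha := a_pos' n
  have h3 : Q n x = (∑' m, ((Pairs2 n m).ncard : ℝ) * x ^ m) / ((a n : ℝ) * chi x) := rfl
  rw [h3, div_le_one (by positivity), chi, ← tsum_mul_left]
  have hle : ∀ m : ℕ, ((Pairs2 n m).ncard : ℝ) * x ^ m ≤ (a n : ℝ) * ((a m : ℝ) * x ^ m) := by
    intro m
    rw [← mul_assoc]
    refine mul_le_mul_of_nonneg_right ?_ (by positivity)
    exact_mod_cast pairs2_le n m
  refine Summable.tsum_le_tsum hle ?_ (hs.mul_left _)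
  exact Summable.of_nonneg_of_le (fun m => by positivity) hle (hs.mul_left _)

/-- The lower bound, for every `x` below the critical value. -/
theorem Q_ge {x : ℝ} (hx : 0 < x) (hx1 : x * muL < 1) (n : ℕ) {B : ℝ} (hB : 1 ≤ B)
    (h : ∀ m ≤ n, (a m : ℝ) ≤ B * muL ^ m) : (B ^ 2)⁻¹ ≤ Q n x := by
  have hmu := muL_pos
  have hs := chi_summable hx hx1
  have hchi : 0 < chi x := lt_of_lt_of_le (inv_pos.2 (by linarith)) (chi_ge hx hx1)
  have ha := a_pos' n
  set r : ℝ := x * muL with hr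
  have hr0 : 0 < r := by positivity
  have hr1 : 0 < 1 - r := by linarith
  set S : ℝ := ∑ m ∈ Finset.range n, (a m : ℝ) * x ^ m with hS
  set T : ℝ := ∑' m, (a (m + n) : ℝ) * x ^ (m + n) with hT
  have hST : chi x = S + T := by
    rw [chi, ← hs.sum_add_tsum_nat_add n]
  -- `S ≤ B (1 - r^n)/(1 - r)`
  have hS1 : S * (1 - r) ≤ B * (1 - r ^ n) := by
    have h1 : S ≤ B * ∑ m ∈ Finset.range n, r ^ m := by
      rw [hS, Finset.mul_sum]
      refine Finset.sum_le_sum fun m hm => ?_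
      have h2 := h m (Finset.mem_range.1 hm).le
      calc (a m : ℝ) * x ^ m ≤ (B * muL ^ m) * x ^ m := mul_le_mul_of_nonneg_right h2 (by positivity)
        _ = B * r ^ m := by rw [hr, mul_pow]; ring
    have h2 : (∑ m ∈ Finset.range n, r ^ m) * (1 - r) = 1 - r ^ n := by
      have := geom_sum_mul_neg r n
      linarith
    calc S * (1 - r) ≤ (B * ∑ m ∈ Finset.range n, r ^ m) * (1 - r) := mul_le_mul_of_nonneg_right h1 hr1.le
      _ = B * (1 - r ^ n) := by rw [mul_assoc, h2]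
  -- `T ≥ r^n/(1 - r)`
  have hT1 : r ^ n ≤ T * (1 - r) := by
    have hs2 : Summable fun m : ℕ => (a (m + n) : ℝ) * x ^ (m + n) :=
      (summable_nat_add_iff (f := fun m : ℕ => (a m : ℝ) * x ^ m) n).2 hs
    have h1 : r ^ n * (1 - r)⁻¹ ≤ T := by
      rw [← tsum_geometric_of_lt_one hr0.le hx1, ← tsum_mul_left]
      refine Summable.tsum_le_tsum (fun m => ?_) ((summable_geometric_of_lt_one hr0.le hx1).mul_left _) hs2
      rw [← pow_add, add_comm n m, hr, mul_pow, mul_comm (x ^ (m + n))]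
      exact mul_le_mul_of_nonneg_right (muL_pow_le _) (by positivity)
    calc r ^ n = r ^ n * (1 - r)⁻¹ * (1 - r) := by field_simp
      _ ≤ T * (1 - r) := mul_le_mul_of_nonneg_right h1 hr1.le
  have hrn0 : 0 < r ^ n := by positivity
  have hrn1 : r ^ n ≤ 1 := pow_le_one₀ hr0.le hx1.le
  have hT0 : 0 < T := by
    by_contra hcon
    have : T * (1 - r) ≤ 0 := mul_nonpos_of_nonpos_of_nonneg (not_lt.1 hcon) hr1.le
    linarith
  -- `B T ≥ r^n (S + T)`
  have hkey : r ^ n * chi x ≤ B * T := by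
    rw [hST]
    have h1 : r ^ n * (S * (1 - r)) ≤ B * (1 - r ^ n) * (T * (1 - r)) := by
      calc r ^ n * (S * (1 - r)) ≤ r ^ n * (B * (1 - r ^ n)) := mul_le_mul_of_nonneg_left hS1 hrn0.le
        _ = B * (1 - r ^ n) * r ^ n := by ring
        _ ≤ B * (1 - r ^ n) * (T * (1 - r)) := by
            refine mul_le_mul_of_nonneg_left hT1 ?_
            exact mul_nonneg (by linarith) (by linarith)
    have h2 : r ^ n * S ≤ B * (1 - r ^ n) * T := by
      have h3 : (r ^ n * S) * (1 - r) ≤ (B * (1 - r ^ n) * T) * (1 - r) := by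
        calc (r ^ n * S) * (1 - r) = r ^ n * (S * (1 - r)) := by ring
          _ ≤ _ := h1
          _ = _ := by ring
      exact le_of_mul_le_mul_right h3 hr1
    have h4 : r ^ n * T ≤ B * r ^ n * T := by
      refine mul_le_mul_of_nonneg_right ?_ hT0.le
      calc r ^ n = 1 * r ^ n := (one_mul _).symm
        _ ≤ B * r ^ n := mul_le_mul_of_nonneg_right hB hrn0.le
    calc r ^ n * (S + T) = r ^ n * S + r ^ n * T := by ring
      _ ≤ B * (1 - r ^ n) * T + B * r ^ n * T := add_le_add h2 h4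
      _ = B * T := by ring
  have hQ : Q n x = (x ^ n * a n)⁻¹ * (T / chi x) := by
    rw [Q_eq hx hx1 n, ← hS]
    congr 1
    rw [eq_div_iff hchi.ne', sub_mul, div_mul_cancel₀ _ hchi.ne', one_mul, hST]
    ring
  rw [hQ]
  have h5 : r ^ n / B ≤ T / chi x := by
    rw [div_le_div_iff₀ (by linarith) hchi]
    calc r ^ n * chi x ≤ B * T := hkey
      _ = T * B := mul_comm _ _
  have h6 : (B * r ^ n)⁻¹ ≤ (x ^ n * a n)⁻¹ := by
    refine inv_anti₀ (by positivity) ?_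
    calc x ^ n * a n ≤ x ^ n * (B * muL ^ n) := mul_le_mul_of_nonneg_left (h n le_rfl) (by positivity)
      _ = B * r ^ n := by rw [hr, mul_pow]; ring
  calc (B ^ 2)⁻¹ = (B * r ^ n)⁻¹ * (r ^ n / B) := by
        have : B ≠ 0 := by linarith
        field_simp
    _ ≤ (x ^ n * a n)⁻¹ * (T / chi x) := mul_le_mul h6 h5 (by positivity) (by positivity)

lemma one_sub_inv_pow (n : ℕ) (hn : 2 ≤ n) : (1 / 4 : ℝ) ≤ (1 - 1 / n) ^ n := by
  have hn0 : (0 : ℝ) < n := by exact_mod_cast (by omega : 0 < n)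
  have hn2 : (2 : ℝ) ≤ n := by exact_mod_cast hn
  obtain ⟨k, hk | hk⟩ := Nat.even_or_odd' n
  · have hk0 : (0 : ℝ) < k := by exact_mod_cast (by omega : 0 < k)
    have h1 : (1 / 2 : ℝ) ≤ (1 - 1 / n) ^ k := by
      have h2 := one_add_mul_le_pow (a := -(1 / n : ℝ)) (by
        have : (1 / n : ℝ) ≤ 1 := by rw [div_le_one hn0]; linarith
        linarith) k
      have h3 : (1 : ℝ) + k * -(1 / n) = 1 / 2 := by
        have : (n : ℝ) = 2 * k := by exact_mod_cast hk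
        rw [this]; field_simp; norm_num
      rw [h3] at h2
      calc (1 / 2 : ℝ) ≤ (1 + -(1 / n)) ^ k := h2
        _ = (1 - 1 / n) ^ k := by rw [sub_eq_add_neg]
    calc (1 / 4 : ℝ) = (1 / 2) * (1 / 2) := by norm_num
      _ ≤ (1 - 1 / n) ^ k * (1 - 1 / n) ^ k := mul_le_mul h1 h1 (by norm_num) (by linarith)
      _ = (1 - 1 / n) ^ n := by rw [← pow_add]; congr 1; omega
  · -- odd `n = 2k + 1`, `(1 - 1/n)^n ≥ (1 - 1/n) (1 - k/n)^2 ≥ ((n-1)/n) ((n+1)/(2n))^2`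
    have hk0 : (1 : ℝ) ≤ k := by exact_mod_cast (by omega : 1 ≤ k)
    have hnk : (n : ℝ) = 2 * k + 1 := by exact_mod_cast hk
    have h1 : ((k + 1) / (2 * k + 1) : ℝ) ≤ (1 - 1 / n) ^ k := by
      have h2 := one_add_mul_le_pow (a := -(1 / n : ℝ)) (by
        have : (1 / n : ℝ) ≤ 1 := by rw [div_le_one hn0]; linarith
        linarith) k
      have h3 : (1 : ℝ) + k * -(1 / n) = (k + 1) / (2 * k + 1) := by
        rw [hnk]; field_simp; ring
      rw [h3] at h2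
      calc ((k + 1) / (2 * k + 1) : ℝ) ≤ (1 + -(1 / n)) ^ k := h2
        _ = (1 - 1 / n) ^ k := by rw [sub_eq_add_neg]
    have h4 : (1 - 1 / n : ℝ) = 2 * k / (2 * k + 1) := by rw [hnk]; field_simp; ring
    have h5 : (0 : ℝ) ≤ (k + 1) / (2 * k + 1) := by positivity
    calc (1 / 4 : ℝ) ≤ ((k + 1) / (2 * k + 1)) * ((k + 1) / (2 * k + 1)) * (2 * k / (2 * k + 1)) := by
          rw [div_mul_div_comm, div_mul_div_comm, div_le_div_iff₀ (by norm_num) (by positivity)]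
          nlinarith [sq_nonneg ((k : ℝ) - 1), mul_nonneg (by linarith : (0:ℝ) ≤ k) (by linarith : (0:ℝ) ≤ (k:ℝ) - 1)]
      _ ≤ (1 - 1 / n) ^ k * (1 - 1 / n) ^ k * (1 - 1 / n) := by
          rw [← h4]
          have h6 : (0 : ℝ) ≤ 1 - 1 / n := by rw [h4]; positivity
          exact mul_le_mul_of_nonneg_right (mul_le_mul h1 h1 h5 (h5.trans h1)) h6
      _ = (1 - 1 / n) ^ n := by rw [← pow_add, ← pow_succ]; congr 1; omega

/-- The upper bound: comparable lengths. -/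
theorem Q_le_X : ∃ C : ℝ, 0 < C ∧ ∀ n : ℕ, 1 ≤ n → ∀ x : ℝ, 0 < x → x * muL < 1 → 1 - 1 / (n : ℝ) ≤ x * muL →
    Q n x ≤ C * (n : ℝ) ^ (-(1 / 262) : ℝ) := by
  obtain ⟨c, hc, hlow⟩ := growth_low
  have hmu := muL_pos
  refine ⟨max 1 (4 * c⁻¹), lt_max_of_lt_left one_pos, fun n hn x hx hx1 hx2 => ?_⟩
  rcases Nat.lt_or_ge n 2 with h2 | h2
  · have : n = 1 := by omega
    subst this
    rw [Nat.cast_one, Real.one_rpow, mul_one]
    exact (Q_le_one hx hx1 1).trans (le_max_left _ _)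
  · have hn0 : (0 : ℝ) < n := by exact_mod_cast (by omega : 0 < n)
    have hn2 : (2 : ℝ) ≤ n := by exact_mod_cast h2
    have ha := a_pos' n
    refine (Q_le hx hx1 n).trans ?_
    have h3 : (1 / 4 : ℝ) ≤ (x * muL) ^ n := by
      refine (one_sub_inv_pow n h2).trans (pow_le_pow_left₀ ?_ hx2 n)
      have : (1 / n : ℝ) ≤ 1 := by rw [div_le_one hn0]; linarith
      linarith
    have h4 : c / 4 * (n : ℝ) ^ (1 / 262 : ℝ) ≤ x ^ n * a n := by
      calc c / 4 * (n : ℝ) ^ (1 / 262 : ℝ) = c * (n : ℝ) ^ (1 / 262 : ℝ) * (1 / 4) := by ring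
        _ ≤ c * (n : ℝ) ^ (1 / 262 : ℝ) * (x * muL) ^ n := mul_le_mul_of_nonneg_left h3 (by positivity)
        _ = x ^ n * (c * (n : ℝ) ^ (1 / 262 : ℝ) * muL ^ n) := by rw [mul_pow]; ring
        _ ≤ x ^ n * a n := mul_le_mul_of_nonneg_left (hlow n hn) (by positivity)
    calc (x ^ n * a n)⁻¹ ≤ (c / 4 * (n : ℝ) ^ (1 / 262 : ℝ))⁻¹ := inv_anti₀ (by positivity) h4
      _ = 4 * c⁻¹ * (n : ℝ) ^ (-(1 / 262) : ℝ) := by
          rw [mul_inv, inv_div, Real.rpow_neg hn0.le, div_eq_mul_inv]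
      _ ≤ max 1 (4 * c⁻¹) * (n : ℝ) ^ (-(1 / 262) : ℝ) :=
          mul_le_mul_of_nonneg_right (le_max_right _ _) (by positivity)

/-- The general form: from a nondecreasing bound of `a_m/μ_L^m`. -/
theorem critX_of (B : ℕ → ℝ) (hB : ∀ n, 1 ≤ n → 1 ≤ B n)
    (hup : ∀ n : ℕ, 1 ≤ n → ∀ m : ℕ, 1 ≤ m → m ≤ n → (a m : ℝ) ≤ B n * muL ^ m) :
    ∀ n : ℕ, 1 ≤ n → ∀ x : ℝ, 0 < x → x * muL < 1 → (B n ^ 2)⁻¹ ≤ Q n x := by
  intro n hn x hx hx1
  refine Q_ge hx hx1 n (hB n hn) fun m hm => ?_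
  rcases Nat.eq_zero_or_pos m with rfl | hm0
  · have h0 : a 0 = 1 := by
      have h1 : a (0 + 0) ≤ a 0 * a 0 := a_add_le 0 0
      rw [a_eq]
      exact an_zero
    rw [h0, pow_zero, mul_one, Nat.cast_one]
    exact hB n hn
  · exact hup n hn m hm0 hm

theorem critX (ε : ℝ) (hε : 0 < ε) : ∃ C : ℝ, 0 < C ∧ ∀ n : ℕ, 1 ≤ n → ∀ x : ℝ, 0 < x → x * muL < 1 →
    1 - 1 / (n : ℝ) ≤ x * muL →
      Real.exp (-(C * (n : ℝ) ^ ε)) ≤ Q n x ∧ Q n x ≤ C * (n : ℝ) ^ (-(1 / 262) : ℝ) := by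
  obtain ⟨C₁, hC₁, h1⟩ := Q_le_X
  obtain ⟨C₂, hC₂, h2⟩ := Pool.Agent.HEP.main ε hε
  refine ⟨max C₁ (2 * C₂), lt_max_of_lt_left hC₁, fun n hn x hx hx1 hx2 => ⟨?_, ?_⟩⟩
  · have h3 := critX_of (fun n => Real.exp (C₂ * (n : ℝ) ^ ε)) (fun n _ => Real.one_le_exp (by positivity))
      (fun n _ m hm hmn => by
        refine ((h2 m hm).1).trans (le_of_eq_of_le (mul_comm _ _) ?_)
        refine mul_le_mul_of_nonneg_right (Real.exp_le_exp.2 ?_) (pow_nonneg muL_pos.le _)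
        refine mul_le_mul_of_nonneg_left ?_ hC₂.le
        exact Real.rpow_le_rpow (by positivity) (by exact_mod_cast hmn) hε.le) n hn x hx hx1
    refine le_trans ?_ h3
    rw [← Real.exp_nat_mul, ← Real.exp_neg]
    refine Real.exp_le_exp.2 (neg_le_neg ?_)
    push_cast
    calc 2 * (C₂ * (n : ℝ) ^ ε) = (2 * C₂) * (n : ℝ) ^ ε := by ring
      _ ≤ max C₁ (2 * C₂) * (n : ℝ) ^ ε := mul_le_mul_of_nonneg_right (le_max_right _ _) (by positivity)
  · refine (h1 n hn x hx hx1 hx2).trans ?_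
    exact mul_le_mul_of_nonneg_right (le_max_left _ _) (by positivity)

theorem critX_poly (D K : ℝ) (hD : 0 < D) (hK : 1 ≤ K) (hup : ∀ n : ℕ, 1 ≤ n →
      (a n : ℝ) ≤ K * (n : ℝ) ^ D * muL ^ n) :
    ∃ C : ℝ, 0 < C ∧ ∀ n : ℕ, 1 ≤ n → ∀ x : ℝ, 0 < x → x * muL < 1 → 1 - 1 / (n : ℝ) ≤ x * muL →
      (n : ℝ) ^ (-(2 * D)) / C ≤ Q n x ∧ Q n x ≤ C * (n : ℝ) ^ (-(1 / 262) : ℝ) := by
  obtain ⟨C₁, hC₁, h1⟩ := Q_le_X
  have hK0 : 0 < K := by linarith
  refine ⟨max C₁ (K ^ 2), lt_max_of_lt_left hC₁, fun n hn x hx hx1 hx2 => ⟨?_, ?_⟩⟩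
  · have hn0 : (0 : ℝ) < n := by exact_mod_cast hn
    have hn1 : (1 : ℝ) ≤ n := by exact_mod_cast hn
    have h3 := critX_of (fun n => K * (n : ℝ) ^ D) (fun n hn => by
        have : (1 : ℝ) ≤ (n : ℝ) ^ D := Real.one_le_rpow (by exact_mod_cast hn) hD.le
        nlinarith)
      (fun n _ m hm hmn => by
        refine (hup m hm).trans ?_
        refine mul_le_mul_of_nonneg_right ?_ (pow_nonneg muL_pos.le _)
        refine mul_le_mul_of_nonneg_left ?_ hK0.le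
        exact Real.rpow_le_rpow (by positivity) (by exact_mod_cast hmn) hD.le) n hn x hx hx1
    refine le_trans ?_ h3
    have h4 : ((K * (n : ℝ) ^ D) ^ 2)⁻¹ = (n : ℝ) ^ (-(2 * D)) / K ^ 2 := by
      rw [mul_pow, mul_inv, Real.rpow_neg hn0.le, ← Real.rpow_natCast ((n : ℝ) ^ D), ← Real.rpow_mul hn0.le,
        Nat.cast_ofNat, mul_comm D 2, div_eq_mul_inv, mul_comm]
    rw [h4]
    exact div_le_div_of_nonneg_left (by positivity) (by positivity) (le_max_right _ _)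
  · refine (h1 n hn x hx hx1 hx2).trans ?_
    exact mul_le_mul_of_nonneg_right (le_max_left _ _) (by positivity)

end Pool.Agent.HDN
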