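import Pool.Agent.HDN.MainP
import Pool.Agent.HDN.AbsP

set_option autoImplicit false

/-!
`main_poly` in the form of the hand-in, and the windows `[n, K n]`.
-/

namespace Pool.Agent.HDN

open Pool.Agent.Hhelper14.Honeycomb

theorem poly_fin (h : ∃ C : ℝ, 0 < C ∧ ∀ n : ℕ, 1 ≤ n → (a n : ℝ) ≤ C * (n : ℝ) ^ C * muL ^ n) :
    ∃ D C : ℝ, 0 < D ∧ 0 < C ∧ ∀ n k : ℕ, 1 ≤ n →
      ∏ j ∈ Finset.range k, P (2 ^ j * n) ^ ((1 / 2 : ℝ) ^ (j + 1)) ≤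
        C * (n : ℝ) ^ (D / 2 ^ k - 1 / 262 : ℝ) := by
  obtain ⟨D, hD, h⟩ := h
  obtain ⟨C, hC, h'⟩ := main_poly D (max D 1) hD (le_max_right _ _) (fun n hn => (h n hn).trans (by
    have : 0 < muL := muL_pos
    gcongr
    exact le_max_left _ _))
  exact ⟨D, C, hD, hC, h'⟩

/-- for every `δ < 1/262` every window `[n, K n]` contains an `m` with `P_m ≤ C m^(-δ)` -/
theorem poly_window (h : ∃ C : ℝ, 0 < C ∧ ∀ n : ℕ, 1 ≤ n → (a n : ℝ) ≤ C * (n : ℝ) ^ C * muL ^ n)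
    (δ : ℝ) (hδ0 : 0 ≤ δ) (hδ : δ < 1 / 262) :
    ∃ (K : ℕ) (C : ℝ), 0 < C ∧ ∀ n : ℕ, 1 ≤ n → ∃ m : ℕ, n ≤ m ∧ m ≤ K * n ∧
      P m ≤ C * (m : ℝ) ^ (-δ) := by
  obtain ⟨D, hD, h⟩ := h
  obtain ⟨c, hc, hlow⟩ := growth_low
  obtain ⟨K, C, hC, h'⟩ := abs_window (fun n => (a n : ℝ)) Pool.Agent.Hhelper14.SAW.a_pos muL muL_pos
    (1 / 262) c hc D (max D 1) hD (le_max_right _ _) hlow (fun n hn => (h n hn).trans (by
      have : 0 < muL := muL_pos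
      gcongr
      exact le_max_left _ _)) δ hδ0 hδ
  refine ⟨K, C, hC, fun n hn => ?_⟩
  obtain ⟨m, h1, h2, h3⟩ := h' n hn
  refine ⟨m, h1, h2, ?_⟩
  rw [Pool.Agent.Hhelper14.SAW.P_eq]
  exact h3

end Pool.Agent.HDN
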