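import Pool.Agent.HDN.Chain

set_option autoImplicit false

/-!
Power law growth of the mass of the slit exits, exponent `1/131`.
-/

namespace Pool.Agent.HDN

open Pool.Agent.Hhelper14.SAW

/-- Numerics: `10^(2/262) ≤ 1 + 1/(28 + 20 √2)`. -/
lemma ten_rpow_le' {ρ : ℝ} (hρ : 0.017766 ≤ ρ) : (10 : ℝ) ^ (2 * (1 / 262 : ℝ)) ≤ 1 + ρ := by
  have hlog : Real.log 10 ≤ 2.3045 := by
    have h1 : Real.log 10 = Real.log 2 * 3 + Real.log 1.25 := by
      have : (10 : ℝ) = 2 ^ 3 * 1.25 := by norm_num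
      rw [this, Real.log_mul (by norm_num) (by norm_num), Real.log_pow]
      push_cast; ring
    have h2 := Real.log_two_lt_d9
    have h3 : Real.log 1.25 ≤ 0.225 := by
      rw [Real.log_le_iff_le_exp (by norm_num)]
      have := Real.quadratic_le_exp_of_nonneg (x := 0.225) (by norm_num)
      norm_num at this ⊢
      linarith
    linarith
  have h4 : 2 * 0.017766 / (0.017766 + 2) ≤ Real.log (1 + 0.017766) :=
    Real.le_log_one_add_of_nonneg (by norm_num)
  have h5 : Real.log 10 * (2 * (1 / 262)) ≤ Real.log (1 + 0.017766) := by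
    refine le_trans ?_ h4
    norm_num
    linarith
  rw [Real.rpow_def_of_pos (by norm_num)]
  calc Real.exp (Real.log 10 * (2 * (1 / 262))) ≤ Real.exp (Real.log (1 + 0.017766)) :=
        Real.exp_le_exp.2 h5
    _ = 1 + 0.017766 := Real.exp_log (by norm_num)
    _ ≤ 1 + ρ := by linarith

/-- Growth of the mass of the slit exits. -/
theorem slit_growth : ∃ K : ℝ, 0 < K ∧ ∀ N : ℕ, ((N : ℝ) + 1) ^ (2 * (1 / 262 : ℝ)) ≤
    K * (1 + 2 * Real.sin (Real.pi / 8) * mass (Par.all N) 5) := by
  obtain ⟨-, -, -, hmu2, hsm⟩ := trig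
  have hr : Real.sqrt 2 ^ 2 = 2 := Real.sq_sqrt (by norm_num)
  have hr1 : (1.414 : ℝ) ≤ Real.sqrt 2 := Real.le_sqrt_of_sq_le (by norm_num)
  have hr2 : Real.sqrt 2 ≤ 1.4143 := by
    rw [Real.sqrt_le_left (by norm_num)]; norm_num
  set r := Real.sqrt 2 with hrd
  have hmu0 := mu_pos
  set s : ℝ := 2 * Real.sin (Real.pi / 8) with hs
  have hs0 : 0.7 ≤ s := by rw [hs]; linarith [sin_bound]
  have hsmu : s * mu = r := by rw [hs]; linarith
  have hx := xc_pos
  have hxm := xc_mu
  set g : ℕ → ℝ := fun N => 1 + s * mass (Par.all N) 5 with hgdef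
  have h0 : ∀ n, 1 ≤ g n := fun n => by
    have := mass_nonneg (Par.all n) 5
    simp only [hgdef]
    nlinarith
  have hmono : Monotone g := fun N M hNM => by
    have := mass_mono (Par.all_le hNM) (k := 5) (by simp [Par.side])
    simp only [hgdef]
    nlinarith
  set K : ℝ := (6 + 4 * r) * (xc + 1 / xc) + mu * (4 + 3 * r) with hK
  have hK0 : 0 < K := by positivity
  have hinv : 1 / xc = mu := by unfold xc; simp
  set ρ : ℝ := s / K with hρ
  have hKm : K * mu = 40 + 28 * r := by
    rw [hK, hinv]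
    linear_combination (6 + 4 * r) * hxm + (10 + 7 * r) * hmu2 + 7 * hr
  have hρ0 : 0.017766 ≤ ρ := by
    rw [hρ, le_div_iff₀ hK0]
    have h1 : 0.017766 * K * mu ≤ s * mu := by
      rw [mul_assoc, hKm, hsmu]; nlinarith
    exact le_of_mul_le_mul_right h1 hmu0
  have hρp : 0 < ρ := by linarith
  have hrec : ∀ N, (1 + ρ) * g N ≤ g (10 * N + 21) := by
    intro N
    have h1 := chain (N + 1)
    have h2 : 10 * (N + 1) + 11 = 10 * N + 21 := by ring
    rw [h2] at h1
    have h3 := four_five' N (10 * N + 21) (by omega)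
    have h4 : mass (Par.all N) 5 ≤ mass (Par.all (N + 1)) 5 :=
      mass_mono (Par.all_le (Nat.le_succ N)) (by simp [Par.side])
    have h6 : s * mass (Par.all N) 5 ≤ s * mass (Par.all (N + 1)) 5 :=
      mul_le_mul_of_nonneg_left h4 (by linarith)
    have h7 := mul_le_mul_of_nonneg_left h3 (show 0 ≤ 6 + 4 * r by linarith)
    have h8 : mu * (4 + 3 * r) * (mass (Par.all (10 * N + 21)) 5 - mass (Par.all (N + 1)) 5) ≤
        mu * (4 + 3 * r) * (mass (Par.all (10 * N + 21)) 5 - mass (Par.all N) 5) :=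
      mul_le_mul_of_nonneg_left (by linarith) (by positivity)
    have h5 : g N ≤ K * (mass (Par.all (10 * N + 21)) 5 - mass (Par.all N) 5) := by
      have e : K * (mass (Par.all (10 * N + 21)) 5 - mass (Par.all N) 5) =
          (6 + 4 * r) * ((xc + 1 / xc) * (mass (Par.all (10 * N + 21)) 5 - mass (Par.all N) 5)) +
          mu * (4 + 3 * r) * (mass (Par.all (10 * N + 21)) 5 - mass (Par.all N) 5) := by
        rw [hK]; ring
      rw [e]
      simp only [hgdef]
      linarith
    have h9 : ρ * g N ≤ s * (mass (Par.all (10 * N + 21)) 5 - mass (Par.all N) 5) := by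
      rw [hρ, div_mul_eq_mul_div, div_le_iff₀ hK0]
      have := mul_le_mul_of_nonneg_left h5 (show 0 ≤ s by linarith)
      linarith
    have h10 : g (10 * N + 21) - g N = s * (mass (Par.all (10 * N + 21)) 5 - mass (Par.all N) 5) := by
      simp only [hgdef]; ring
    linarith
  have hgr := growth g h0 hmono ρ (2 * (1 / 262)) (by linarith) (by norm_num) (ten_rpow_le' hρ0) hrec
  exact ⟨(1 + ρ) ^ 2, by positivity, hgr⟩

end Pool.Agent.HDN
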