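import Pool.Agent.HDN.CritX

set_option autoImplicit false

/-!
Final forms: `w` = uniform walk of `n` steps, `w'` = independent walk of random length with weights `x^length`,
`(1 - 1/n)/μ_L ≤ x < 1/μ_L`.

* `len`: `exp(-C n^ε) ≤ Q n x ≤ C n^(-1/262)` for every `n ≥ 2`. `len_of`: lower bound from any bound of `a_m/μ_L^m`.
  `len_poly`: `n^(-C)/C ≤ Q n x ≤ C n^(-1/262)`, hypothesis `a_n ≤ K n^D μ_L^n`.
* `mean_log`: the mean length of `w'` is at most `(4/δ) log(χ(y)/χ(x))`, `δ = 1 - μ_L x`, `μ_L y = 1 - δ/2`.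
* `mean_eps`, `mean_poly`: the mean length of `w'` at `x = (1 - 1/n)/μ_L` is at most `C n^(1+ε)`, resp. `C n (1 + log n)`.
-/

namespace Pool.Agent.HDN

open Pool.Agent.Hhelper14.SAW Pool.Agent.Hhelper14.Honeycomb Filter Topology

lemma range_iff {n : ℕ} {x : ℝ} (hn : 2 ≤ n) (h1 : (1 - 1 / (n : ℝ)) / muL ≤ x) (h2 : x < 1 / muL) :
    0 < x ∧ x * muL < 1 ∧ 1 - 1 / (n : ℝ) ≤ x * muL := by
  have hmu := muL_pos
  have hn2 : (2 : ℝ) ≤ n := by exact_mod_cast hn
  have hn0 : (0 : ℝ) < n := by linarith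
  have h3 : 0 < 1 - 1 / (n : ℝ) := by
    have : (1 / n : ℝ) ≤ 1 / 2 := div_le_div_of_nonneg_left (by norm_num) (by norm_num) hn2
    linarith
  refine ⟨lt_of_lt_of_le (div_pos h3 hmu) h1, (lt_div_iff₀ hmu).1 h2, (div_le_iff₀ hmu).1 h1⟩

/-- Every `n`, comparable lengths, the bounds of the present state. -/
theorem len (ε : ℝ) (hε : 0 < ε) : ∃ C : ℝ, 0 < C ∧ ∀ n : ℕ, 2 ≤ n → ∀ x : ℝ, (1 - 1 / (n : ℝ)) / muL ≤ x →
    x < 1 / muL → Real.exp (-(C * (n : ℝ) ^ ε)) ≤ Q n x ∧ Q n x ≤ C * (n : ℝ) ^ (-(1 / 262) : ℝ) := by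
  obtain ⟨C, hC, h⟩ := critX ε hε
  refine ⟨C, hC, fun n hn x h1 h2 => ?_⟩
  obtain ⟨h3, h4, h5⟩ := range_iff hn h1 h2
  exact h n (by omega) x h3 h4 h5

/-- The lower bound from any nondecreasing bound of `a_m/μ_L^m`; all `x` below the critical value. -/
theorem len_of (F : ℕ → ℝ) (hF : Monotone F) (hF1 : ∀ n, 1 ≤ n → 1 ≤ F n)
    (hup : ∀ m : ℕ, 1 ≤ m → (a m : ℝ) ≤ F m * muL ^ m) (n : ℕ) (hn : 1 ≤ n) (x : ℝ) (hx : 0 < x)
    (hx1 : x < 1 / muL) : (F n ^ 2)⁻¹ ≤ Q n x := by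
  refine critX_of F hF1 (fun n _ m hm hmn => (hup m hm).trans ?_) n hn x hx ((lt_div_iff₀ muL_pos).1 hx1)
  exact mul_le_mul_of_nonneg_right (hF hmn) (pow_nonneg muL_pos.le _)

theorem len_poly (D K : ℝ) (hD : 0 < D) (hK : 1 ≤ K) (hup : ∀ n : ℕ, 1 ≤ n →
      (a n : ℝ) ≤ K * (n : ℝ) ^ D * muL ^ n) :
    ∃ C : ℝ, 0 < C ∧ ∀ n : ℕ, 2 ≤ n → ∀ x : ℝ, (1 - 1 / (n : ℝ)) / muL ≤ x → x < 1 / muL →
      (n : ℝ) ^ (-C) / C ≤ Q n x ∧ Q n x ≤ C * (n : ℝ) ^ (-(1 / 262) : ℝ) := by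
  obtain ⟨C, hC, h⟩ := critX_poly D K hD hK hup
  refine ⟨max C (2 * D), lt_max_of_lt_left hC, fun n hn x h1 h2 => ?_⟩
  obtain ⟨h3, h4, h5⟩ := range_iff hn h1 h2
  have h6 := h n (by omega) x h3 h4 h5
  have hn0 : (0 : ℝ) < n := by exact_mod_cast (by omega : 0 < n)
  have hn1 : (1 : ℝ) ≤ n := by exact_mod_cast (by omega : 1 ≤ n)
  refine ⟨le_trans ?_ h6.1, h6.2.trans (mul_le_mul_of_nonneg_right (le_max_left _ _) (by positivity))⟩
  refine div_le_div₀ (by positivity) ?_ hC (le_max_left _ _)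
  exact Real.rpow_le_rpow_of_exponent_le hn1 (neg_le_neg (le_max_right _ _))

/-! ### The mean length of `w'` -/

/-- The mean length of a walk with weights `x^length`. -/
noncomputable def ML (x : ℝ) : ℝ := (∑' m : ℕ, (m : ℝ) * ((a m : ℝ) * x ^ m)) / chi x

/-- Jensen's inequality. -/
theorem mean_log {δ : ℝ} (h0 : 0 < δ) (h1 : δ < 1) :
    ML ((1 - δ) / muL) ≤ 4 / δ * Real.log (chi ((1 - δ / 2) / muL) / chi ((1 - δ) / muL)) := by
  have hmu := muL_pos
  set x : ℝ := (1 - δ) / muL with hx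
  set y : ℝ := (1 - δ / 2) / muL with hy
  have hx0 : 0 < x := div_pos (by linarith) hmu
  have hy0 : 0 < y := div_pos (by linarith) hmu
  have hxm : x * muL = 1 - δ := by rw [hx]; field_simp
  have hym : y * muL = 1 - δ / 2 := by rw [hy]; field_simp
  have hsx := chi_summable hx0 (by rw [hxm]; linarith)
  have hsy := chi_summable hy0 (by rw [hym]; linarith)
  have hchi : 0 < chi x := lt_of_lt_of_le (inv_pos.2 (by rw [hxm]; linarith)) (chi_ge hx0 (by rw [hxm]; linarith))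
  -- `exp(δ m/4) ≤ (y/x)^m`
  have hq : Real.exp (δ / 4) ≤ y / x := by
    have h2 : Real.exp (δ / 4) ≤ 1 + δ / 2 := by
      have h3 := Real.exp_bound_div_one_sub_of_interval (x := δ / 4) (by linarith) (by linarith)
      refine h3.trans ?_
      rw [div_le_iff₀ (by linarith)]
      nlinarith
    have h4 : 1 + δ / 2 ≤ y / x := by
      rw [le_div_iff₀ hx0, hx, hy, ← mul_div_assoc]
      exact div_le_div_of_nonneg_right (by nlinarith) hmu.le
    exact h2.trans h4
  have hm : ∀ m : ℕ, Real.exp (δ / 4 * m) * ((a m : ℝ) * x ^ m) ≤ (a m : ℝ) * y ^ m := by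
    intro m
    have ha : (0 : ℝ) ≤ a m := by positivity
    calc Real.exp (δ / 4 * m) * ((a m : ℝ) * x ^ m) = (Real.exp (δ / 4)) ^ m * ((a m : ℝ) * x ^ m) := by
          rw [← Real.exp_nat_mul, mul_comm (δ / 4)]
      _ ≤ (y / x) ^ m * ((a m : ℝ) * x ^ m) :=
          mul_le_mul_of_nonneg_right (pow_le_pow_left₀ (Real.exp_pos _).le hq m) (by positivity)
      _ = (a m : ℝ) * y ^ m := by
          rw [div_pow]
          field_simp
  have hsm : Summable fun m : ℕ => (m : ℝ) * ((a m : ℝ) * x ^ m) := by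
    refine Summable.of_nonneg_of_le (fun m => by positivity) (fun m => ?_) (hsy.mul_left (4 / δ))
    have h2 : (m : ℝ) ≤ 4 / δ * Real.exp (δ / 4 * m) := by
      have h3 := Real.add_one_le_exp (δ / 4 * m)
      calc (m : ℝ) = 4 / δ * (δ / 4 * m) := by field_simp
        _ ≤ 4 / δ * Real.exp (δ / 4 * m) := mul_le_mul_of_nonneg_left (by linarith) (by positivity)
    calc (m : ℝ) * ((a m : ℝ) * x ^ m) ≤ (4 / δ * Real.exp (δ / 4 * m)) * ((a m : ℝ) * x ^ m) :=
          mul_le_mul_of_nonneg_right h2 (by positivity)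
      _ = 4 / δ * (Real.exp (δ / 4 * m) * ((a m : ℝ) * x ^ m)) := by ring
      _ ≤ 4 / δ * ((a m : ℝ) * y ^ m) := mul_le_mul_of_nonneg_left (hm m) (by positivity)
  set s : ℝ := δ / 4 * ML x with hs
  have hML : ML x * chi x = ∑' m : ℕ, (m : ℝ) * ((a m : ℝ) * x ^ m) := by
    rw [ML, div_mul_cancel₀ _ hchi.ne']
  have hkey : Real.exp s * chi x ≤ chi y := by
    have h5 : ∀ m : ℕ, Real.exp s * (δ / 4 * ((m : ℝ) * ((a m : ℝ) * x ^ m)) + (1 - s) * ((a m : ℝ) * x ^ m)) ≤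
        (a m : ℝ) * y ^ m := by
      intro m
      refine le_trans ?_ (hm m)
      have h6 := Real.add_one_le_exp (δ / 4 * m - s)
      have h7 : Real.exp (δ / 4 * m) = Real.exp s * Real.exp (δ / 4 * m - s) := by
        rw [← Real.exp_add]; congr 1; ring
      rw [h7]
      calc Real.exp s * (δ / 4 * ((m : ℝ) * ((a m : ℝ) * x ^ m)) + (1 - s) * ((a m : ℝ) * x ^ m))
          = Real.exp s * (δ / 4 * m - s + 1) * ((a m : ℝ) * x ^ m) := by ring
        _ ≤ Real.exp s * Real.exp (δ / 4 * m - s) * ((a m : ℝ) * x ^ m) := by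
            refine mul_le_mul_of_nonneg_right ?_ (by positivity)
            exact mul_le_mul_of_nonneg_left h6 (Real.exp_pos _).le
    have h8 : Summable fun m : ℕ => δ / 4 * ((m : ℝ) * ((a m : ℝ) * x ^ m)) + (1 - s) * ((a m : ℝ) * x ^ m) :=
      (hsm.mul_left _).add (hsx.mul_left _)
    have h9 := Summable.tsum_le_tsum h5 (h8.mul_left _) hsy
    rw [tsum_mul_left, (hsm.mul_left (δ / 4)).tsum_add (hsx.mul_left (1 - s)), tsum_mul_left, tsum_mul_left, ← hML] at h9
    have h10 : δ / 4 * (ML x * chi x) + (1 - s) * ∑' m, (a m : ℝ) * x ^ m = chi x := by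
      have : (∑' m, (a m : ℝ) * x ^ m) = chi x := rfl
      rw [this, hs]; ring
    rw [h10] at h9
    exact h9
  have h11 : s ≤ Real.log (chi y / chi x) := by
    have h12 : Real.exp s ≤ chi y / chi x := (le_div_iff₀ hchi).2 hkey
    have h13 := Real.log_le_log (Real.exp_pos s) h12
    rwa [Real.log_exp] at h13
  calc ML x = 4 / δ * s := by rw [hs]; field_simp
    _ ≤ 4 / δ * Real.log (chi y / chi x) := mul_le_mul_of_nonneg_left h11 (by positivity)

/-- `χ(x) ≥ 1`. -/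
lemma one_le_chi {x : ℝ} (hx : 0 < x) (hx1 : x * muL < 1) : 1 ≤ chi x := by
  refine le_trans ?_ (chi_ge hx hx1)
  have hmu := muL_pos
  have h2 : 0 < x * muL := by positivity
  exact (one_le_inv₀ (by linarith)).2 (by linarith)

lemma chi_le {δ B : ℝ} (h0 : 0 < δ) (h1 : δ < 1) (hB : 0 ≤ B)
    (h : ∀ m : ℕ, (a m : ℝ) ≤ B * Real.exp (δ / 4 * m) * muL ^ m) : chi ((1 - δ / 2) / muL) ≤ B * (8 / δ) := by
  have hmu := muL_pos
  set y : ℝ := (1 - δ / 2) / muL with hy
  have hy0 : 0 < y := div_pos (by linarith) hmu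
  have hym : y * muL = 1 - δ / 2 := by rw [hy]; field_simp
  have hsy := chi_summable hy0 (by rw [hym]; linarith)
  set q : ℝ := Real.exp (-(δ / 4)) with hq
  have hq0 : 0 < q := Real.exp_pos _
  have hq1 : q < 1 := lt_of_lt_of_eq (Real.exp_lt_exp.2 (by linarith)) Real.exp_zero
  have hb : ∀ m : ℕ, (a m : ℝ) * y ^ m ≤ B * q ^ m := by
    intro m
    have h2 : 1 - δ / 2 ≤ Real.exp (-(δ / 2)) := by
      have := Real.add_one_le_exp (-(δ / 2))
      linarith
    have h3 : (1 - δ / 2) ^ m ≤ (Real.exp (-(δ / 2))) ^ m := pow_le_pow_left₀ (by linarith) h2 m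
    calc (a m : ℝ) * y ^ m ≤ (B * Real.exp (δ / 4 * m) * muL ^ m) * y ^ m :=
          mul_le_mul_of_nonneg_right (h m) (by positivity)
      _ = B * Real.exp (δ / 4 * m) * (1 - δ / 2) ^ m := by rw [← hym, mul_pow]; ring
      _ ≤ B * Real.exp (δ / 4 * m) * (Real.exp (-(δ / 2))) ^ m := mul_le_mul_of_nonneg_left h3 (by positivity)
      _ = B * q ^ m := by
          rw [hq, ← Real.exp_nat_mul, ← Real.exp_nat_mul, mul_assoc, ← Real.exp_add]
          congr 2; ring
  have h4 : chi y ≤ B * (1 - q)⁻¹ := by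
    rw [← tsum_geometric_of_lt_one hq0.le hq1, ← tsum_mul_left]
    exact Summable.tsum_le_tsum hb hsy ((summable_geometric_of_lt_one hq0.le hq1).mul_left _)
  refine h4.trans (mul_le_mul_of_nonneg_left ?_ hB)
  have h5 : q ≤ 1 - δ / 8 := by
    have h6 := Real.exp_bound_div_one_sub_of_interval (x := δ / 4) (by linarith) (by linarith)
    have h7 : 1 + δ / 4 ≤ Real.exp (δ / 4) := by
      have := Real.add_one_le_exp (δ / 4)
      linarith
    rw [hq, Real.exp_neg]
    refine (inv_anti₀ (by linarith) h7).trans ?_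
    rw [inv_le_comm₀ (by linarith) (by linarith)]
    have h8 : (1 - δ / 8)⁻¹ = 1 / (1 - δ / 8) := (one_div _).symm
    rw [h8, div_le_iff₀ (by linarith)]
    nlinarith
  calc (1 - q)⁻¹ ≤ (δ / 8)⁻¹ := inv_anti₀ (by linarith) (by linarith)
    _ = 8 / δ := by rw [inv_div]

/-- The mean length of `w'` from any bound of `a_m/μ_L^m`. -/
theorem mean_of {δ B : ℝ} (h0 : 0 < δ) (h1 : δ < 1) (hB : 0 < B)
    (h : ∀ m : ℕ, (a m : ℝ) ≤ B * Real.exp (δ / 4 * m) * muL ^ m) :
    ML ((1 - δ) / muL) ≤ 4 / δ * (Real.log B + Real.log (8 / δ)) := by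
  have hmu := muL_pos
  have hx0 : 0 < (1 - δ) / muL := div_pos (by linarith) hmu
  have hxm : (1 - δ) / muL * muL = 1 - δ := by field_simp
  have hy0 : 0 < (1 - δ / 2) / muL := div_pos (by linarith) hmu
  have hym : (1 - δ / 2) / muL * muL = 1 - δ / 2 := by field_simp
  have hx1 := one_le_chi hx0 (by rw [hxm]; linarith)
  have hy1 := one_le_chi hy0 (by rw [hym]; linarith)
  refine (mean_log h0 h1).trans (mul_le_mul_of_nonneg_left ?_ (by positivity))
  rw [← Real.log_mul hB.ne' (by positivity)]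
  refine Real.log_le_log (div_pos (by linarith) (by linarith)) ?_
  refine (div_le_self (by linarith) hx1).trans (chi_le h0 h1 hB.le h)

lemma a_zero : a 0 = 1 := by rw [a_eq]; exact an_zero

/-- The mean length of `w'` at `x = (1 - 1/n)/μ_L` is at most `C n^(1+ε)`. -/
theorem mean_eps (ε : ℝ) (hε : 0 < ε) : ∃ C : ℝ, 0 < C ∧ ∀ n : ℕ, 2 ≤ n →
    ML ((1 - 1 / (n : ℝ)) / muL) ≤ C * (n : ℝ) ^ (1 + ε) := by
  set e : ℝ := min (ε / 2) (1 / 2) with he
  have he0 : 0 < e := lt_min (by linarith) (by norm_num)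
  have he1 : e ≤ 1 / 2 := min_le_right _ _
  have he2 : 2 * e ≤ ε := by
    have := min_le_left (ε / 2) (1 / 2)
    linarith
  obtain ⟨C, hC, h⟩ := Pool.Agent.HEP.main e he0
  have hlog : ∀ n : ℕ, 2 ≤ n → Real.log n ≤ (1 / ε) * (n : ℝ) ^ ε := by
    intro n hn
    have hn0 : (0 : ℝ) ≤ n := by positivity
    have := Real.log_le_rpow_div hn0 hε
    calc Real.log n ≤ (n : ℝ) ^ ε / ε := this
      _ = (1 / ε) * (n : ℝ) ^ ε := by ring
  refine ⟨4 * (C * (4 * C + 1) + Real.log 8 + 1 / ε), by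
    have : 0 ≤ Real.log 8 := Real.log_nonneg (by norm_num)
    positivity, fun n hn => ?_⟩
  have hn2 : (2 : ℝ) ≤ n := by exact_mod_cast hn
  have hn0 : (0 : ℝ) < n := by linarith
  have hn1 : (1 : ℝ) ≤ n := by linarith
  have hd0 : 0 < 1 / (n : ℝ) := by positivity
  have hd1 : 1 / (n : ℝ) < 1 := by rw [div_lt_one hn0]; linarith
  -- `C m^e ≤ m/(4n) + C M^e`, `M^(1-e) = 4 C n`
  set M : ℝ := (4 * C * n) ^ (1 / (1 - e)) with hM
  have hM0 : 0 ≤ M := by positivity
  have h1e : 0 < 1 - e := by linarith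
  have hME : M ^ (1 - e) = 4 * C * n := by
    rw [hM, ← Real.rpow_mul (by positivity), one_div_mul_cancel h1e.ne', Real.rpow_one]
  have hMe : M ^ e ≤ (4 * C + 1) * (n : ℝ) ^ ε := by
    have h2 : M ^ e = (4 * C * n) ^ (e / (1 - e)) := by
      rw [hM, ← Real.rpow_mul (by positivity)]; congr 1; ring
    have h3 : e / (1 - e) ≤ 2 * e := by
      rw [div_le_iff₀ h1e]; nlinarith
    have h4 : e / (1 - e) ≤ 1 := by
      rw [div_le_one h1e]; linarith
    have h5 : 0 ≤ e / (1 - e) := by positivity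
    rw [h2]
    calc (4 * C * n) ^ (e / (1 - e)) ≤ ((4 * C + 1) * n) ^ (e / (1 - e)) :=
          Real.rpow_le_rpow (by positivity) (by nlinarith) h5
      _ = (4 * C + 1) ^ (e / (1 - e)) * (n : ℝ) ^ (e / (1 - e)) :=
          Real.mul_rpow (by positivity) (by positivity)
      _ ≤ (4 * C + 1) ^ (1 : ℝ) * (n : ℝ) ^ ε := by
          refine mul_le_mul ?_ ?_ (by positivity) (by positivity)
          · exact Real.rpow_le_rpow_of_exponent_le (by linarith) h4
          · exact Real.rpow_le_rpow_of_exponent_le hn1 (by linarith)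
      _ = (4 * C + 1) * (n : ℝ) ^ ε := by rw [Real.rpow_one]
  have hup : ∀ m : ℕ, (a m : ℝ) ≤ Real.exp (C * M ^ e) * Real.exp (1 / (n : ℝ) / 4 * m) * muL ^ m := by
    intro m
    rcases Nat.eq_zero_or_pos m with rfl | hm
    · rw [a_zero, Nat.cast_one, Nat.cast_zero, mul_zero, Real.exp_zero, pow_zero, mul_one, mul_one]
      exact Real.one_le_exp (by positivity)
    · have hm0 : (0 : ℝ) < m := by exact_mod_cast hm
      rw [← Real.exp_add]
      refine ((h m hm).1).trans ?_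
      rw [mul_comm]
      refine mul_le_mul_of_nonneg_right (Real.exp_le_exp.2 ?_) (pow_nonneg muL_pos.le _)
      rcases le_total (m : ℝ) M with h2 | h2
      · have h3 : (m : ℝ) ^ e ≤ M ^ e := Real.rpow_le_rpow hm0.le h2 he0.le
        have h4 : 0 ≤ 1 / (n : ℝ) / 4 * m := by positivity
        have := mul_le_mul_of_nonneg_left h3 hC.le
        linarith
      · have h3 : 4 * C * n ≤ (m : ℝ) ^ (1 - e) := by
          rw [← hME]; exact Real.rpow_le_rpow hM0 h2 h1e.le
        have h4 : (m : ℝ) ^ (1 - e) * (m : ℝ) ^ e = m := by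
          rw [← Real.rpow_add hm0]
          have : 1 - e + e = 1 := by ring
          rw [this, Real.rpow_one]
        have h5 : C * (m : ℝ) ^ e ≤ 1 / (n : ℝ) / 4 * m := by
          have h6 : 0 ≤ (m : ℝ) ^ e := by positivity
          have h7 := mul_le_mul_of_nonneg_right h3 h6
          rw [h4] at h7
          calc C * (m : ℝ) ^ e = 1 / (n : ℝ) / 4 * (4 * C * n * (m : ℝ) ^ e) := by field_simp
            _ ≤ 1 / (n : ℝ) / 4 * m := mul_le_mul_of_nonneg_left h7 (by positivity)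
        have h8 : 0 ≤ C * M ^ e := by positivity
        linarith
  have h9 := mean_of hd0 hd1 (Real.exp_pos _) hup
  refine h9.trans ?_
  rw [Real.log_exp]
  have h10 : Real.log (8 / (1 / (n : ℝ))) = Real.log 8 + Real.log n := by
    rw [div_div_eq_mul_div, div_one, Real.log_mul (by norm_num) hn0.ne']
  rw [h10]
  have h11 : (n : ℝ) ^ (1 + ε) = n * (n : ℝ) ^ ε := by rw [Real.rpow_add hn0, Real.rpow_one]
  have h12 : 4 / (1 / (n : ℝ)) = 4 * n := by field_simp
  have h13 : 1 ≤ (n : ℝ) ^ ε := Real.one_le_rpow hn1 hε.le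
  have h14 : 0 ≤ Real.log 8 := Real.log_nonneg (by norm_num)
  rw [h11, h12]
  have h15 : C * M ^ e + (Real.log 8 + Real.log n) ≤ (C * (4 * C + 1) + Real.log 8 + 1 / ε) * (n : ℝ) ^ ε := by
    have h16 := mul_le_mul_of_nonneg_left hMe hC.le
    have h17 := hlog n hn
    have h18 : Real.log 8 ≤ Real.log 8 * (n : ℝ) ^ ε := le_mul_of_one_le_right h14 h13
    calc C * M ^ e + (Real.log 8 + Real.log n)
        ≤ C * ((4 * C + 1) * (n : ℝ) ^ ε) + (Real.log 8 * (n : ℝ) ^ ε + 1 / ε * (n : ℝ) ^ ε) :=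
          add_le_add h16 (add_le_add h18 h17)
      _ = _ := by ring
  calc 4 * (n : ℝ) * (C * M ^ e + (Real.log 8 + Real.log n))
      ≤ 4 * (n : ℝ) * ((C * (4 * C + 1) + Real.log 8 + 1 / ε) * (n : ℝ) ^ ε) :=
        mul_le_mul_of_nonneg_left h15 (by positivity)
    _ = _ := by ring

/-- The same from a polynomial bound: `C n (1 + log n)`. -/
theorem mean_poly (D K : ℝ) (hD : 0 < D) (hK : 1 ≤ K) (hup : ∀ n : ℕ, 1 ≤ n →
      (a n : ℝ) ≤ K * (n : ℝ) ^ D * muL ^ n) :
    ∃ C : ℝ, 0 < C ∧ ∀ n : ℕ, 2 ≤ n → ML ((1 - 1 / (n : ℝ)) / muL) ≤ C * n * (1 + Real.log n) := by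
  have hK0 : 0 < K := by linarith
  set K' : ℝ := K * (4 * D) ^ D + 1 with hK'
  have hK1 : 1 ≤ K' := by
    have : 0 ≤ K * (4 * D) ^ D := by positivity
    linarith
  have hL : 0 ≤ Real.log K' := Real.log_nonneg hK1
  have hL8 : 0 ≤ Real.log 8 := Real.log_nonneg (by norm_num)
  refine ⟨4 * (Real.log K' + Real.log 8 + D + 1), by positivity, fun n hn => ?_⟩
  have hn2 : (2 : ℝ) ≤ n := by exact_mod_cast hn
  have hn0 : (0 : ℝ) < n := by linarith
  have hn1 : (1 : ℝ) ≤ n := by linarith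
  have hd0 : 0 < 1 / (n : ℝ) := by positivity
  have hd1 : 1 / (n : ℝ) < 1 := by rw [div_lt_one hn0]; linarith
  have hnD : 1 ≤ (n : ℝ) ^ D := Real.one_le_rpow hn1 hD.le
  have hb : ∀ m : ℕ, (a m : ℝ) ≤ (K' * (n : ℝ) ^ D) * Real.exp (1 / (n : ℝ) / 4 * m) * muL ^ m := by
    intro m
    rcases Nat.eq_zero_or_pos m with rfl | hm
    · rw [a_zero, Nat.cast_one, Nat.cast_zero, mul_zero, Real.exp_zero, pow_zero, mul_one, mul_one]
      nlinarith
    · have hm0 : (0 : ℝ) < m := by exact_mod_cast hm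
      refine (hup m hm).trans (mul_le_mul_of_nonneg_right ?_ (pow_nonneg muL_pos.le _))
      set u : ℝ := 1 / (n : ℝ) / 4 * m with hu
      have hu0 : 0 < u := by positivity
      -- `u^D ≤ D^D e^u`
      have h1 : u ^ D ≤ D ^ D * Real.exp u := by
        have h2 : u / D ≤ Real.exp (u / D) := by
          have := Real.add_one_le_exp (u / D)
          linarith
        have h3 : (u / D) ^ D ≤ (Real.exp (u / D)) ^ D := Real.rpow_le_rpow (by positivity) h2 hD.le
        have h4 : (Real.exp (u / D)) ^ D = Real.exp u := by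
          rw [← Real.exp_mul]; congr 1; field_simp
        rw [h4, Real.div_rpow hu0.le hD.le, div_le_iff₀ (by positivity)] at h3
        linarith
      have h5 : (m : ℝ) ^ D = (4 * n) ^ D * u ^ D := by
        rw [← Real.mul_rpow (by positivity) hu0.le]
        congr 1
        rw [hu]; field_simp
      calc K * (m : ℝ) ^ D = K * ((4 * n) ^ D * u ^ D) := by rw [h5]
        _ ≤ K * ((4 * n) ^ D * (D ^ D * Real.exp u)) := by gcongr
        _ = (K * (4 * D) ^ D) * (n : ℝ) ^ D * Real.exp u := by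
            rw [Real.mul_rpow (by norm_num) hn0.le, Real.mul_rpow (by norm_num) hD.le]; ring
        _ ≤ K' * (n : ℝ) ^ D * Real.exp u := by
            have : K * (4 * D) ^ D ≤ K' := by rw [hK']; linarith
            gcongr
  have h9 := mean_of hd0 hd1 (by positivity) hb
  refine h9.trans ?_
  have h10 : Real.log (8 / (1 / (n : ℝ))) = Real.log 8 + Real.log n := by
    rw [div_div_eq_mul_div, div_one, Real.log_mul (by norm_num) hn0.ne']
  rw [h10, Real.log_mul (by linarith) (by positivity), Real.log_rpow hn0]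
  have h12 : 4 / (1 / (n : ℝ)) = 4 * n := by field_simp
  rw [h12]
  have hl : 0 ≤ Real.log n := Real.log_nonneg hn1
  have h13 : Real.log K' + D * Real.log n + (Real.log 8 + Real.log n) ≤
      (Real.log K' + Real.log 8 + D + 1) * (1 + Real.log n) := by
    nlinarith [mul_nonneg hL hl, mul_nonneg hL8 hl]
  calc 4 * (n : ℝ) * (Real.log K' + D * Real.log n + (Real.log 8 + Real.log n))
      ≤ 4 * (n : ℝ) * ((Real.log K' + Real.log 8 + D + 1) * (1 + Real.log n)) :=
        mul_le_mul_of_nonneg_left h13 (by positivity)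
    _ = _ := by ring

end Pool.Agent.HDN
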