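import Pool.Agent.HDN.Mean
import Pool.Agent.HDN.Growth
import Pool.Agent.HHP.Main

set_option autoImplicit false

/-!
Honeycomb lattice: the weighted geometric mean of the non-intersection probabilities at the lengths
`n, 2n, 4n, ...` is at most a negative power of `n`.
-/

namespace Pool.Agent.HDN

open Pool.Agent.Hhelper14.Honeycomb

theorem main : ∃ C : ℝ, 0 < C ∧ ∀ n k : ℕ, 1 ≤ n → n ≤ 4 ^ k →
    ∏ j ∈ Finset.range k, P (2 ^ j * n) ^ ((1 / 2 : ℝ) ^ (j + 1)) ≤ C * (n : ℝ) ^ (-(1 / 262) : ℝ) := by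
  obtain ⟨c, hc, hlow⟩ := growth_low
  obtain ⟨C₁, hC₁, hup⟩ := Pool.Agent.HHP.main
  have hmu : 0 < muL := by
    rw [Pool.Agent.Hhelper14.SAW.muL_eq Pool.Agent.Hhelper14.SAW.hw_quant]
    exact Pool.Agent.Hhelper14.SAW.mu_pos
  refine ⟨Real.exp C₁ / c, by positivity, fun n k hn hk => ?_⟩
  simp only [Pool.Agent.Hhelper14.SAW.P_eq]
  refine mean_le (fun n => (a n : ℝ)) Pool.Agent.Hhelper14.SAW.a_pos muL hmu (1 / 262) c hc C₁ n k hn
    (hlow n hn) ?_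
  have hN : 1 ≤ 2 ^ k * n := Nat.one_le_iff_ne_zero.2 (by positivity)
  refine ((hup _ hN).1).trans (mul_le_mul_of_nonneg_left ?_ (by positivity))
  refine Real.exp_le_exp.2 (mul_le_mul_of_nonneg_left ?_ hC₁.le)
  have h1 : ((2 ^ k * n : ℕ) : ℝ) ≤ ((2 : ℝ) ^ k) ^ 3 := by
    have : 2 ^ k * n ≤ (2 ^ k) ^ 3 := by
      calc 2 ^ k * n ≤ 2 ^ k * 4 ^ k := Nat.mul_le_mul_left _ hk
        _ = (2 ^ k) ^ 3 := by
          rw [show (4 : ℕ) = 2 ^ 2 by norm_num, ← pow_mul, ← pow_mul, ← pow_add]; congr 1; ring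
    exact_mod_cast this
  calc ((2 ^ k * n : ℕ) : ℝ) ^ (1 / 3 : ℝ) ≤ (((2 : ℝ) ^ k) ^ 3) ^ (1 / 3 : ℝ) :=
        Real.rpow_le_rpow (by positivity) h1 (by norm_num)
    _ = 2 ^ k := by
        rw [← Real.rpow_natCast ((2 : ℝ) ^ k) 3, ← Real.rpow_mul (by positivity)]
        norm_num

end Pool.Agent.HDN
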