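import Pool.Agent.HDN.Mean
import Pool.Agent.HDN.Growth

set_option autoImplicit false

/-!
The version of `main` for an upper bound `a_n ≤ μ_L^n exp(C n^ε)` with every `ε > 0`.
-/

namespace Pool.Agent.HDN

open Pool.Agent.Hhelper14.Honeycomb

theorem main_eps (hup : ∀ ε : ℝ, 0 < ε → ∃ C : ℝ, 0 < C ∧ ∀ n : ℕ, 1 ≤ n →
      (a n : ℝ) ≤ muL ^ n * Real.exp (C * (n : ℝ) ^ ε)) (θ : ℝ) (hθ : 0 < θ) :
    ∃ C : ℝ, 0 < C ∧ ∀ n k : ℕ, 1 ≤ n → (n : ℝ) ^ θ ≤ 2 ^ k →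
      ∏ j ∈ Finset.range k, P (2 ^ j * n) ^ ((1 / 2 : ℝ) ^ (j + 1)) ≤
        C * (n : ℝ) ^ (-(1 / 262) : ℝ) := by
  obtain ⟨c, hc, hlow⟩ := growth_low
  have hθ1 : 0 < 1 + θ := by linarith
  obtain ⟨C₁, hC₁, hup'⟩ := hup (θ / (1 + θ)) (by positivity)
  have hmu : 0 < muL := by
    rw [Pool.Agent.Hhelper14.SAW.muL_eq Pool.Agent.Hhelper14.SAW.hw_quant]
    exact Pool.Agent.Hhelper14.SAW.mu_pos
  refine ⟨Real.exp C₁ / c, by positivity, fun n k hn hk => ?_⟩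
  have hn0 : (0 : ℝ) < n := by exact_mod_cast hn
  simp only [Pool.Agent.Hhelper14.SAW.P_eq]
  refine mean_le (fun n => (a n : ℝ)) Pool.Agent.Hhelper14.SAW.a_pos muL hmu (1 / 262) c hc C₁ n k hn
    (hlow n hn) ?_
  have hN : 1 ≤ 2 ^ k * n := Nat.one_le_iff_ne_zero.2 (by positivity)
  refine (hup' _ hN).trans (mul_le_mul_of_nonneg_left ?_ (by positivity))
  refine Real.exp_le_exp.2 (mul_le_mul_of_nonneg_left ?_ hC₁.le)
  -- `n ≤ (2^k)^(1/θ)`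
  have h1 : (n : ℝ) ≤ ((2 : ℝ) ^ k) ^ (1 / θ) := by
    have h2 := Real.rpow_le_rpow (by positivity) hk (show 0 ≤ 1 / θ by positivity)
    rwa [← Real.rpow_mul hn0.le, mul_one_div_cancel hθ.ne', Real.rpow_one] at h2
  have h3 : ((2 ^ k * n : ℕ) : ℝ) ≤ ((2 : ℝ) ^ k) ^ (1 + 1 / θ) := by
    rw [Real.rpow_add (by positivity), Real.rpow_one]
    push_cast
    exact mul_le_mul_of_nonneg_left h1 (by positivity)
  calc ((2 ^ k * n : ℕ) : ℝ) ^ (θ / (1 + θ)) ≤ (((2 : ℝ) ^ k) ^ (1 + 1 / θ)) ^ (θ / (1 + θ)) :=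
        Real.rpow_le_rpow (by positivity) h3 (by positivity)
    _ = 2 ^ k := by
        rw [← Real.rpow_mul (by positivity)]
        have : (1 + 1 / θ) * (θ / (1 + θ)) = 1 := by field_simp; ring
        rw [this, Real.rpow_one]

end Pool.Agent.HDN
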