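import Pool.Agent.HDN.Mean
import Pool.Agent.HDN.Growth
import Pool.Agent.HDN.Crit

set_option autoImplicit false

/-!
The versions of `main_eps` and `crit` for a polynomial upper bound `a_n ≤ C n^D μ_L^n`.
-/

namespace Pool.Agent.HDN

open Pool.Agent.Hhelper14.Honeycomb Filter Topology

theorem main_poly (D K : ℝ) (hD : 0 < D) (hK : 1 ≤ K) (hup : ∀ n : ℕ, 1 ≤ n →
      (a n : ℝ) ≤ K * (n : ℝ) ^ D * muL ^ n) :
    ∃ C : ℝ, 0 < C ∧ ∀ n k : ℕ, 1 ≤ n →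
      ∏ j ∈ Finset.range k, P (2 ^ j * n) ^ ((1 / 2 : ℝ) ^ (j + 1)) ≤
        C * (n : ℝ) ^ (D / 2 ^ k - 1 / 262 : ℝ) := by
  obtain ⟨c, hc, hlow⟩ := growth_low
  have hmu := muL_pos
  refine ⟨K * 2 ^ D / c, by positivity, fun n k hn => ?_⟩
  have hn0 : (0 : ℝ) < n := by exact_mod_cast hn
  have hn1 : (1 : ℝ) ≤ n := by exact_mod_cast hn
  simp only [Pool.Agent.Hhelper14.SAW.P_eq]
  set C₁ : ℝ := (1 / 2) ^ k * (Real.log K + D * Real.log ((2 : ℝ) ^ k * n)) with hC₁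
  have hlogK : 0 ≤ Real.log K := Real.log_nonneg hK
  have hN : 1 ≤ 2 ^ k * n := Nat.one_le_iff_ne_zero.2 (by positivity)
  have hp : (1 / 2 : ℝ) ^ k * 2 ^ k = 1 := by rw [← mul_pow]; norm_num
  have hC2 : C₁ * 2 ^ k = Real.log K + D * Real.log ((2 : ℝ) ^ k * n) := by
    rw [hC₁, mul_comm ((1 / 2 : ℝ) ^ k), mul_assoc, hp, mul_one]
  have h1 := mean_le (fun n => (a n : ℝ)) Pool.Agent.Hhelper14.SAW.a_pos muL hmu (1 / 262) c hc C₁ n k hn
    (hlow n hn) (by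
      refine (hup _ hN).trans (le_of_eq ?_)
      rw [hC2, Real.exp_add, Real.exp_log (by linarith), mul_comm D, ← Real.rpow_def_of_pos (by positivity)]
      push_cast
      ring)
  refine h1.trans ?_
  have hk : (1 / 2 : ℝ) ^ k * k ≤ 1 := by
    have h2 : (k : ℝ) ≤ 2 ^ k := by
      exact_mod_cast (Nat.lt_two_pow_self).le
    calc (1 / 2 : ℝ) ^ k * k ≤ (1 / 2 : ℝ) ^ k * 2 ^ k := mul_le_mul_of_nonneg_left h2 (by positivity)
      _ = 1 := hp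
  have hk1 : (1 / 2 : ℝ) ^ k ≤ 1 := pow_le_one₀ (by norm_num) (by norm_num)
  have hlog2 : 0 ≤ Real.log 2 := Real.log_nonneg (by norm_num)
  have hb : C₁ ≤ Real.log K + D * Real.log 2 + D / 2 ^ k * Real.log n := by
    rw [hC₁, Real.log_mul (by positivity) hn0.ne', Real.log_pow]
    have e1 : (1 / 2 : ℝ) ^ k * (Real.log K + D * ((k : ℝ) * Real.log 2 + Real.log n)) =
        (1 / 2 : ℝ) ^ k * Real.log K + D * Real.log 2 * ((1 / 2 : ℝ) ^ k * k) + D / 2 ^ k * Real.log n := by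
      rw [one_div, inv_pow]
      field_simp
      ring
    rw [e1]
    have e2 : (1 / 2 : ℝ) ^ k * Real.log K ≤ Real.log K := mul_le_of_le_one_left hlogK hk1
    have e3 : D * Real.log 2 * ((1 / 2 : ℝ) ^ k * k) ≤ D * Real.log 2 := mul_le_of_le_one_right (by positivity) hk
    linarith
  have hexp : Real.exp C₁ ≤ K * 2 ^ D * (n : ℝ) ^ (D / 2 ^ k) := by
    calc Real.exp C₁ ≤ Real.exp (Real.log K + D * Real.log 2 + D / 2 ^ k * Real.log n) := Real.exp_le_exp.2 hb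
      _ = K * 2 ^ D * (n : ℝ) ^ (D / 2 ^ k) := by
        rw [Real.exp_add, Real.exp_add, Real.exp_log (by linarith), Real.rpow_def_of_pos (by norm_num : (0 : ℝ) < 2),
          Real.rpow_def_of_pos hn0, mul_comm D, mul_comm (D / 2 ^ k)]
  calc Real.exp C₁ / c * (n : ℝ) ^ (-(1 / 262) : ℝ)
      ≤ K * 2 ^ D * (n : ℝ) ^ (D / 2 ^ k) / c * (n : ℝ) ^ (-(1 / 262) : ℝ) := by gcongr
    _ = K * 2 ^ D / c * (n : ℝ) ^ (D / 2 ^ k - 1 / 262 : ℝ) := by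
        rw [sub_eq_add_neg, Real.rpow_add hn0]
        ring

theorem crit_poly (D K : ℝ) (hD : 0 < D) (hK : 1 ≤ K) (hup : ∀ n : ℕ, 1 ≤ n →
      (a n : ℝ) ≤ K * (n : ℝ) ^ D * muL ^ n) :
    ∃ C : ℝ, 0 < C ∧ ∀ n : ℕ, 1 ≤ n → ∃ p : ℝ, Tendsto (fun x => Q n x) (𝓝[<] (1 / muL)) (𝓝 p) ∧
      (n : ℝ) ^ (-D) / C ≤ p ∧ p ≤ C * (n : ℝ) ^ (-(1 / 262) : ℝ) := by
  obtain ⟨c, hc, hlow⟩ := growth_low
  have hmu := muL_pos
  refine ⟨max K c⁻¹, lt_max_of_lt_left (by linarith), fun n hn => ⟨muL ^ n / a n, Q_tendsto n, ?_, ?_⟩⟩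
  · have ha := a_pos' n
    have hn0 : (0 : ℝ) < n := by exact_mod_cast hn
    have hK0 : 0 < K := by linarith
    rw [div_le_div_iff₀ (lt_max_of_lt_left hK0) ha]
    calc (n : ℝ) ^ (-D) * a n ≤ (n : ℝ) ^ (-D) * (K * (n : ℝ) ^ D * muL ^ n) :=
          mul_le_mul_of_nonneg_left (hup n hn) (by positivity)
      _ = ((n : ℝ) ^ (-D) * (n : ℝ) ^ D) * (muL ^ n * K) := by ring
      _ = muL ^ n * K := by rw [← Real.rpow_add hn0, neg_add_cancel, Real.rpow_zero, one_mul]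
      _ ≤ muL ^ n * max K c⁻¹ := mul_le_mul_of_nonneg_left (le_max_left _ _) (by positivity)
  · have ha := a_pos' n
    have hn0 : (0 : ℝ) < n := by exact_mod_cast hn
    rw [div_le_iff₀ ha]
    have h1 := hlow n hn
    have h2 : (n : ℝ) ^ (-(1 / 262) : ℝ) * (n : ℝ) ^ (1 / 262 : ℝ) = 1 := by
      rw [← Real.rpow_add hn0, neg_add_cancel, Real.rpow_zero]
    calc muL ^ n = (c⁻¹ * (n : ℝ) ^ (-(1 / 262) : ℝ)) * (c * (n : ℝ) ^ (1 / 262 : ℝ) * muL ^ n) := by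
          have : c⁻¹ * c = 1 := inv_mul_cancel₀ hc.ne'
          calc muL ^ n = (c⁻¹ * c) * ((n : ℝ) ^ (-(1 / 262) : ℝ) * (n : ℝ) ^ (1 / 262 : ℝ)) * muL ^ n := by
                rw [this, h2, one_mul, one_mul]
            _ = _ := by ring
      _ ≤ (c⁻¹ * (n : ℝ) ^ (-(1 / 262) : ℝ)) * a n := mul_le_mul_of_nonneg_left h1 (by positivity)
      _ ≤ max K c⁻¹ * (n : ℝ) ^ (-(1 / 262) : ℝ) * a n := by
          refine mul_le_mul_of_nonneg_right ?_ ha.le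
          exact mul_le_mul_of_nonneg_right (le_max_right _ _) (by positivity)

end Pool.Agent.HDN
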