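import Pool.Agent.HDN.Mean
import Pool.Agent.HDN.Growth

set_option autoImplicit false

/-!
The version of `main` for an upper bound `a_n ≤ μ_L^n exp(C (1 + log n)^A)`.
-/

namespace Pool.Agent.HDN

open Pool.Agent.Hhelper14.Honeycomb

/-- `(1 + k)^A ≤ C 2^(k/2)` -/
lemma pow_le_two (A : ℝ) (hA : 0 < A) : ∃ C : ℝ, 0 < C ∧ ∀ k : ℕ, (1 + (k : ℝ)) ^ A ≤ C * ((2 : ℝ) ^ k) ^ (1 / 2 : ℝ) := by
  have hl : 0 < Real.log 2 := Real.log_pos (by norm_num)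
  set c : ℝ := Real.log 2 / (2 * A) with hc
  have hc0 : 0 < c := by positivity
  refine ⟨Real.exp (Real.log 2 / 2) * (1 / c) ^ A, by positivity, fun k => ?_⟩
  have hk : (0 : ℝ) < 1 + k := by positivity
  have h1 : c * (1 + k) ≤ Real.exp (c * (1 + k)) := by
    have := Real.add_one_le_exp (c * (1 + k)); linarith
  have h2 : (1 + (k : ℝ)) ≤ 1 / c * Real.exp (c * (1 + k)) := by
    rw [one_div, ← div_eq_inv_mul, le_div_iff₀ hc0]
    linarith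
  have h3 := Real.rpow_le_rpow hk.le h2 hA.le
  refine h3.trans (le_of_eq ?_)
  rw [Real.mul_rpow (by positivity) (Real.exp_pos _).le, ← Real.exp_mul]
  have h4 : c * (1 + (k : ℝ)) * A = Real.log 2 / 2 + Real.log 2 / 2 * k := by
    rw [hc]; field_simp
  have h5 : ((2 : ℝ) ^ k) ^ (1 / 2 : ℝ) = Real.exp (Real.log 2 / 2 * k) := by
    rw [Real.rpow_def_of_pos (by positivity), Real.log_pow]
    congr 1; ring
  rw [h4, h5, Real.exp_add]
  ring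

theorem main_quasi (hup : ∃ C A : ℝ, 0 < C ∧ 0 < A ∧ ∀ n : ℕ, 1 ≤ n →
      (a n : ℝ) ≤ muL ^ n * Real.exp (C * (1 + Real.log n) ^ A)) :
    ∃ B C : ℝ, 0 < B ∧ 0 < C ∧ ∀ n k : ℕ, 1 ≤ n → (1 + Real.log n) ^ B ≤ 2 ^ k →
      ∏ j ∈ Finset.range k, P (2 ^ j * n) ^ ((1 / 2 : ℝ) ^ (j + 1)) ≤
        C * (n : ℝ) ^ (-(1 / 262) : ℝ) := by
  obtain ⟨c, hc, hlow⟩ := growth_low
  obtain ⟨C₁, A, hC₁, hA, hup'⟩ := hup
  obtain ⟨C₂, hC₂, hpow⟩ := pow_le_two A hA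
  have hmu : 0 < muL := by
    rw [Pool.Agent.Hhelper14.SAW.muL_eq Pool.Agent.Hhelper14.SAW.hw_quant]
    exact Pool.Agent.Hhelper14.SAW.mu_pos
  refine ⟨2 * A, Real.exp (C₁ * C₂) / c, by positivity, by positivity, fun n k hn hk => ?_⟩
  have hn0 : (0 : ℝ) < n := by exact_mod_cast hn
  simp only [Pool.Agent.Hhelper14.SAW.P_eq]
  refine mean_le (fun n => (a n : ℝ)) Pool.Agent.Hhelper14.SAW.a_pos muL hmu (1 / 262) c hc (C₁ * C₂) n k hn
    (hlow n hn) ?_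
  have hN : 1 ≤ 2 ^ k * n := Nat.one_le_iff_ne_zero.2 (by positivity)
  refine (hup' _ hN).trans (mul_le_mul_of_nonneg_left ?_ (by positivity))
  refine Real.exp_le_exp.2 ?_
  rw [mul_assoc]
  refine mul_le_mul_of_nonneg_left ?_ hC₁.le
  set t : ℝ := 1 + Real.log n with ht
  have ht1 : 1 ≤ t := by
    have : 0 ≤ Real.log n := Real.log_natCast_nonneg n
    linarith
  have h1 : 1 + Real.log ((2 ^ k * n : ℕ) : ℝ) ≤ t * (1 + k) := by
    push_cast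
    rw [Real.log_mul (by positivity) hn0.ne', Real.log_pow]
    have h2 : Real.log 2 ≤ 1 := by
      have := Real.log_le_sub_one_of_pos (show (0 : ℝ) < 2 by norm_num); linarith
    have h3 : (k : ℝ) * Real.log 2 ≤ k := mul_le_of_le_one_right (by positivity) h2
    have h4 : (k : ℝ) ≤ t * k := le_mul_of_one_le_left (by positivity) ht1
    nlinarith
  have h0 : 0 ≤ 1 + Real.log ((2 ^ k * n : ℕ) : ℝ) := by
    have : 0 ≤ Real.log ((2 ^ k * n : ℕ) : ℝ) := Real.log_natCast_nonneg _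
    linarith
  have h5 : t ^ A ≤ ((2 : ℝ) ^ k) ^ (1 / 2 : ℝ) := by
    have h6 := Real.rpow_le_rpow (by positivity) hk (show (0 : ℝ) ≤ 1 / 2 by norm_num)
    rw [← Real.rpow_mul (by linarith)] at h6
    have h7 : 2 * A * (1 / 2) = A := by ring
    rwa [h7] at h6
  calc (1 + Real.log ((2 ^ k * n : ℕ) : ℝ)) ^ A ≤ (t * (1 + k)) ^ A := Real.rpow_le_rpow h0 h1 hA.le
    _ = t ^ A * (1 + (k : ℝ)) ^ A := Real.mul_rpow (by linarith) (by positivity)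
    _ ≤ ((2 : ℝ) ^ k) ^ (1 / 2 : ℝ) * (C₂ * ((2 : ℝ) ^ k) ^ (1 / 2 : ℝ)) :=
        mul_le_mul h5 (hpow k) (by positivity) (by positivity)
    _ = C₂ * 2 ^ k := by
        have h8 : ((2 : ℝ) ^ k) ^ (1 / 2 : ℝ) * ((2 : ℝ) ^ k) ^ (1 / 2 : ℝ) = 2 ^ k := by
          rw [← Real.rpow_add (by positivity)]; norm_num
        calc ((2 : ℝ) ^ k) ^ (1 / 2 : ℝ) * (C₂ * ((2 : ℝ) ^ k) ^ (1 / 2 : ℝ))
            = C₂ * (((2 : ℝ) ^ k) ^ (1 / 2 : ℝ) * ((2 : ℝ) ^ k) ^ (1 / 2 : ℝ)) := by ring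
          _ = _ := by rw [h8]

end Pool.Agent.HDN
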