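import Mathlib

set_option autoImplicit false

/-!
A weighted geometric mean of the ratios `a_{2m} / a_m ^ 2` over `m = n, 2n, 4n, ...` telescopes.
-/

namespace Pool.Agent.HDN

/-- The product telescopes. -/
theorem prod_eq (an : ℕ → ℝ) (hpos : ∀ n, 0 < an n) (L : ℝ) (n k : ℕ) :
    ∏ j ∈ Finset.range k, (an (2 * (2 ^ j * n)) / an (2 ^ j * n) ^ 2) ^ ((1 / 2 : ℝ) ^ (j + 1)) =
      Real.exp ((1 / 2) ^ k * (Real.log (an (2 ^ k * n)) - (2 ^ k * n : ℕ) * L) -
        (Real.log (an n) - n * L)) := by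
  induction k with
  | zero => simp
  | succ k ih =>
    rw [Finset.prod_range_succ, ih, Real.rpow_def_of_pos (by have := hpos (2 ^ k * n); have := hpos (2 * (2 ^ k * n)); positivity),
      ← Real.exp_add]
    congr 1
    have h1 : 2 ^ (k + 1) * n = 2 * (2 ^ k * n) := by ring
    rw [h1, Real.log_div (hpos _).ne' (pow_ne_zero 2 (hpos _).ne'), Real.log_pow, pow_succ]
    push_cast
    ring

/-- A lower bound at `n` and an upper bound at `2^k n` bound the mean. -/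
theorem mean_le (an : ℕ → ℝ) (hpos : ∀ n, 0 < an n) (mu : ℝ) (hmu : 0 < mu) (κ : ℝ) (c : ℝ) (hc : 0 < c)
    (C₁ : ℝ) (n k : ℕ) (hn : 1 ≤ n) (hlow : c * (n : ℝ) ^ κ * mu ^ n ≤ an n)
    (hup : an (2 ^ k * n) ≤ mu ^ (2 ^ k * n) * Real.exp (C₁ * 2 ^ k)) :
    ∏ j ∈ Finset.range k, (an (2 * (2 ^ j * n)) / an (2 ^ j * n) ^ 2) ^ ((1 / 2 : ℝ) ^ (j + 1)) ≤
      Real.exp C₁ / c * (n : ℝ) ^ (-κ) := by
  have hn0 : (0 : ℝ) < n := by exact_mod_cast hn
  rw [prod_eq an hpos (Real.log mu)]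
  have h1 := Real.log_le_log (by positivity) hlow
  rw [Real.log_mul (by positivity) (by positivity), Real.log_mul hc.ne' (by positivity),
    Real.log_rpow hn0, Real.log_pow] at h1
  have h2 := Real.log_le_log (hpos _) hup
  rw [Real.log_mul (by positivity) (Real.exp_pos _).ne', Real.log_exp, Real.log_pow] at h2
  have h3 : (1 / 2 : ℝ) ^ k * (Real.log (an (2 ^ k * n)) - (2 ^ k * n : ℕ) * Real.log mu) ≤ C₁ := by
    have h4 : (1 / 2 : ℝ) ^ k * (Real.log (an (2 ^ k * n)) - (2 ^ k * n : ℕ) * Real.log mu) ≤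
        (1 / 2 : ℝ) ^ k * (C₁ * 2 ^ k) :=
      mul_le_mul_of_nonneg_left (by linarith) (by positivity)
    refine h4.trans (le_of_eq ?_)
    rw [one_div, inv_pow]
    field_simp
  have h5 : Real.exp C₁ / c * (n : ℝ) ^ (-κ) = Real.exp (C₁ - Real.log c - κ * Real.log n) := by
    rw [Real.exp_sub, Real.exp_sub, Real.exp_log hc, Real.rpow_neg hn0.le, Real.rpow_def_of_pos hn0,
      mul_comm (Real.log (n : ℝ)) κ]
    rw [div_eq_mul_inv (Real.exp C₁ / c)]
  rw [h5]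
  exact Real.exp_le_exp.2 (by linarith)

end Pool.Agent.HDN
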